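import Pool.Agent.H64.W.Prof
import Pool.Agent.H21.W.TauPos

set_option autoImplicit false

/-!
# Two neighbouring positions of the line in a window of `H54/W/DefH.lean`

`exH D f` : the function `f` on the columns of the window, `w + 1` in the walls. `nuH O q` : the natural
state of the tile `q`. `sto_eqH` : the states of the tiles for the position `τ` of the line.
`strip_of_hstep` : if the line can be moved from the height `j + 1` to the height `j` over the component
`x₁ ≤ x < x₂` then the environments of the positions `push τ j x₁ x₂` (low) and `τ` (high) differ in the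
strip `x₁ ≤ x < x₂`.
-/

namespace Pool.Agent.H64.W

open Pool.Agent.H75.Perc Pool.Agent.H75.TwoArm Pool.Agent.Q1
open Pool.Agent.H33.Q1 (lt tt lt_inj tt_lt)
open Pool.Agent.H54.W Pool.Agent.H21.W.Tau Pool.Agent.H21.W.TauPos
open Pool.Agent.H64.Win (sto sto_none sto_some IsEnv State Strip)

/-- a function on the columns of the window, extended by the height of the walls -/
def exH (D : HWin) (f : ℤ → ℤ) (x : ℤ) : ℤ := if D.p ≤ x ∧ x < D.q then f x else D.w + 1

theorem exH_in {D : HWin} {f : ℤ → ℤ} {x : ℤ} (h1 : D.p ≤ x) (h2 : x < D.q) : exH D f x = f x :=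
  if_pos ⟨h1, h2⟩

theorem exH_out {D : HWin} {f : ℤ → ℤ} {x : ℤ} (h : x < D.p ∨ D.q ≤ x) : exH D f x = D.w + 1 :=
  if_neg (by omega)

open Classical in
/-- **The natural state of a tile** -/
noncomputable def nuH {D : HWin} (O : HOut D) (t : ℤ × ℤ) : Bool :=
  if D.InZ t.1 t.2 then D.fill t.1 t.2 == decide ((t.1 + t.2) % 2 = 1)
  else decide (lt t ∈ O.Wo) == decide ((t.1 + t.2) % 2 = 1)

theorem nuH_box {D : HWin} (O : HOut D) {x y : ℤ} (h : D.InZ x y) :
    nuH O (x, y) = (D.fill x y == decide ((x + y) % 2 = 1)) := if_pos h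

theorem nuH_par {D : HWin} (O : HOut D) {x y x' y' : ℤ} (h : D.InZ x y) (h' : D.InZ x' y')
    (hf : D.fill x y = D.fill x' y') (hp : (x + y) % 2 = (x' + y') % 2) :
    nuH O (x, y) = nuH O (x', y') := by
  rw [nuH_box O h, nuH_box O h', hf, hp]

theorem nuH_not {D : HWin} (O : HOut D) {x y x' y' : ℤ} (h : D.InZ x y) (h' : D.InZ x' y')
    (hf : D.fill x y = D.fill x' y') (hp : (x + y) % 2 ≠ (x' + y') % 2) :
    nuH O (x, y) = !nuH O (x', y') := by
  rw [nuH_box O h, nuH_box O h', hf]
  have : decide ((x + y) % 2 = 1) = !decide ((x' + y') % 2 = 1) := by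
    rw [← decide_not, decide_eq_decide]
    omega
  rw [this]
  cases D.fill x' y' <;> cases decide ((x' + y') % 2 = 1) <;> rfl

section

variable {D : HWin} {x y : ℤ}

/-- no rise shortly before a drop -/
theorem no_rise (h1 : D.p ≤ x) (h2 : x + 1 < D.q) (h3 : D.a (x + 1) < D.a x) :
    D.p + 3 ≤ x ∧ x + 5 ≤ D.q ∧ D.a x ≤ D.a (x - 1) ∧ D.a (x - 1) ≤ D.a (x - 2) := by
  have hf := D.fe (x + 1) (by omega) h2 (by rw [add_sub_cancel_right]; omega)
  have k1 : ¬ D.a (x - 1) < D.a x := by
    intro h
    have := D.ud x (x + 1) (by omega) (by omega) h2 h (by rw [add_sub_cancel_right]; exact h3)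
    omega
  have k2 : ¬ D.a (x - 2) < D.a (x - 1) := by
    intro h
    have := D.ud (x - 1) (x + 1) (by omega) (by omega) h2
      (by rw [show x - 1 - 1 = x - 2 by ring]; exact h) (by rw [add_sub_cancel_right]; exact h3)
    omega
  omega

/-- no drop shortly after a rise -/
theorem no_drop (h1 : D.p < x) (h2 : x < D.q) (h3 : D.a (x - 1) < D.a x) :
    D.p + 4 ≤ x ∧ x + 4 ≤ D.q ∧ D.a x ≤ D.a (x + 1) ∧ D.a (x + 1) ≤ D.a (x + 2) := by
  have hf := D.fe x (by omega) h2 (by omega)
  have k1 : ¬ D.a (x + 1) < D.a x := by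
    intro h
    have := D.ud x (x + 1) (by omega) (by omega) (by omega) h3 (by rw [add_sub_cancel_right]; exact h)
    omega
  have k2 : ¬ D.a (x + 2) < D.a (x + 1) := by
    intro h
    have := D.ud x (x + 2) (by omega) (by omega) (by omega) h3
      (by rw [show x + 2 - 1 = x + 1 by ring]; exact h)
    omega
  omega

theorem exa_le (D : HWin) (x : ℤ) : exH D D.a x ≤ D.w + 1 := by
  by_cases h : D.p ≤ x ∧ x < D.q
  · rw [exH_in h.1 h.2]
    have := D.aw x h.1 h.2
    omega
  · rw [exH_out (by omega)]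

theorem fill_out (h : x < D.p) : D.fill x y = D.cL := if_pos h

theorem fill_out' (h : D.q ≤ x) : D.fill x y = D.cR := by
  have := D.hh
  unfold HWin.fill
  rw [if_neg (by omega), if_pos h]

theorem fill_in (h1 : D.p ≤ x) (h2 : x < D.q) (h3 : y < D.a x) : D.fill x y = D.c x := by
  unfold HWin.fill
  rw [if_neg (by omega), if_neg (by omega), if_pos h3]

/-- the colour behind a wall on the right -/
theorem behR (O : HOut D) (h : exH D D.a (x + 1) < exH D D.a x) (h1 : exH D D.a (x + 1) ≤ y + 1)
    (h2 : y + 3 ≤ exH D D.a x) : D.InZ x y ∧ D.InZ (x - 1) y ∧ D.InZ (x - 1) (y + 1) ∧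
      D.fill x y = D.fill (x - 1) y ∧ D.fill x y = D.fill (x - 1) (y + 1) := by
  have hh := D.hh
  have hx := exa_le D x
  have hi : D.p ≤ x + 1 ∧ x + 1 < D.q := by
    by_contra hc
    rw [exH_out (D := D) (f := D.a) (x := x + 1) (by omega)] at h
    omega
  rw [exH_in hi.1 hi.2] at h h1
  have hlo := D.hlo (x + 1) hi.1 hi.2
  by_cases hp : D.p ≤ x
  · rw [exH_in hp (by omega)] at h h2
    obtain ⟨k1, k2, k3, k4⟩ := no_rise hp hi.2 h
    have k5 := D.aw x hp (by omega)
    have kc := D.cdn x (by omega) hi.2 h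
    have e1 := fill_in (y := y) hp (by omega) (by omega)
    have e2 := fill_in (D := D) (x := x - 1) (y := y) (by omega) (by omega) (by omega)
    have e3 := fill_in (D := D) (x := x - 1) (y := y + 1) (by omega) (by omega) (by omega)
    unfold HWin.InZ
    exact ⟨by omega, by omega, by omega, by rw [e1, e2, kc], by rw [e1, e3, kc]⟩
  · have e1 := fill_out (D := D) (x := x) (y := y) (by omega)
    have e2 := fill_out (D := D) (x := x - 1) (y := y) (by omega)
    have e3 := fill_out (D := D) (x := x - 1) (y := y + 1) (by omega)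
    unfold HWin.InZ
    exact ⟨by omega, by omega, by omega, by rw [e1, e2], by rw [e1, e3]⟩

/-- the colour behind a wall on the left -/
theorem behL (O : HOut D) (h : exH D D.a (x - 1) < exH D D.a x) (h1 : exH D D.a (x - 1) ≤ y + 1)
    (h2 : y + 3 ≤ exH D D.a x) : D.InZ x y ∧ D.InZ (x + 1) y ∧ D.InZ (x + 1) (y + 1) ∧
      D.fill x y = D.fill (x + 1) y ∧ D.fill x y = D.fill (x + 1) (y + 1) := by
  have hh := D.hh
  have hx := exa_le D x
  have hi : D.p ≤ x - 1 ∧ x - 1 < D.q := by
    by_contra hc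
    rw [exH_out (D := D) (f := D.a) (x := x - 1) (by omega)] at h
    omega
  rw [exH_in hi.1 hi.2] at h h1
  have hlo := D.hlo (x - 1) hi.1 hi.2
  by_cases hp : x < D.q
  · rw [exH_in (by omega) hp] at h h2
    obtain ⟨k1, k2, k3, k4⟩ := no_drop (by omega) hp h
    have k5 := D.aw x (by omega) hp
    have kc := D.cup x (by omega) (by omega) h
    have e1 := fill_in (D := D) (x := x) (y := y) (by omega) (by omega) (by omega)
    have e2 := fill_in (D := D) (x := x + 1) (y := y) (by omega) (by omega) (by omega)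
    have e3 := fill_in (D := D) (x := x + 1) (y := y + 1) (by omega) (by omega) (by omega)
    unfold HWin.InZ
    exact ⟨by omega, by omega, by omega, by rw [e1, e2, kc], by rw [e1, e3, kc]⟩
  · have e1 := fill_out' (D := D) (x := x) (y := y) (by omega)
    have e2 := fill_out' (D := D) (x := x + 1) (y := y) (by omega)
    have e3 := fill_out' (D := D) (x := x + 1) (y := y + 1) (by omega)
    unfold HWin.InZ
    exact ⟨by omega, by omega, by omega, by rw [e1, e2], by rw [e1, e3]⟩

end

/-- **The window over the floor `a`** -/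
noncomputable def profH {D : HWin} (O : HOut D) : Prof where
  p := D.p
  q := D.q
  H := D.w
  A := exH D D.a
  ν := nuH O
  hw _ h := exH_out h
  tR x h := by
    have hx := exa_le D x
    have hi : D.p ≤ x + 1 ∧ x + 1 < D.q := by
      by_contra hc
      rw [exH_out (D := D) (f := D.a) (x := x + 1) (by omega)] at h
      omega
    rw [exH_in hi.1 hi.2] at h
    by_cases hp : D.p ≤ x
    · rw [exH_in hp (by omega)] at h ⊢
      obtain ⟨k1, k2, k3, k4⟩ := no_rise hp hi.2 h
      rw [exH_in (x := x - 1) (by omega) (by omega), exH_in (x := x - 2) (by omega) (by omega)]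
      omega
    · rw [exH_out (x := x - 1) (by omega), exH_out (x := x - 2) (by omega)]
      exact ⟨hx, hx⟩
  tL x h := by
    have hx := exa_le D x
    have hi : D.p ≤ x - 1 ∧ x - 1 < D.q := by
      by_contra hc
      rw [exH_out (D := D) (f := D.a) (x := x - 1) (by omega)] at h
      omega
    rw [exH_in hi.1 hi.2] at h
    by_cases hp : x < D.q
    · rw [exH_in (by omega) hp] at h ⊢
      obtain ⟨k1, k2, k3, k4⟩ := no_drop (by omega) hp h
      rw [exH_in (x := x + 1) (by omega) (by omega), exH_in (x := x + 2) (by omega) (by omega)]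
      omega
    · rw [exH_out (x := x + 1) (by omega), exH_out (x := x + 2) (by omega)]
      exact ⟨hx, hx⟩
  tV x h := by
    have hh := D.hh
    have hx := exa_le D (x - 1)
    have hi : D.p ≤ x ∧ x < D.q := by
      by_contra hc
      rw [exH_out (D := D) (f := D.a) (x := x) (by omega)] at h
      omega
    rw [exH_in hi.1 hi.2] at h ⊢
    by_cases hp : D.p ≤ x - 1
    · rw [exH_in hp (by omega)] at h
      have hf := D.fe x (by omega) hi.2 (by omega)
      rw [exH_in (x := x + 1) (by omega) (by omega)]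
      by_contra hc
      have := D.du x (x + 1) (by omega) (by omega) (by omega) h
        (by rw [add_sub_cancel_right]; omega)
      omega
    · have hf := D.fe (x + 1) (by omega) (by omega)
      rw [add_sub_cancel_right] at hf
      rw [exH_in (x := x + 1) (by omega) (by omega)]
      by_contra hc
      have := hf (by omega)
      omega
  pR x h1 h2 h := by
    rw [exH_in h1 h2] at h ⊢
    by_cases hi : x + 1 < D.q
    · rw [exH_in (by omega) hi] at h
      have hp := D.pdn x h1 hi h
      have ha := D.aw x h1 h2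
      have hl := D.hlo x h1 h2
      rw [nuH_box O (by unfold HWin.InZ; omega), fill_in h1 h2 (by omega)]
      cases hc : D.c x
      · rw [hc] at hp
        simp only [Bool.false_eq_true, iff_false] at hp
        rw [decide_eq_false (by omega)]; rfl
      · rw [hc] at hp
        simp only [iff_true] at hp
        rw [decide_eq_true (by omega)]; rfl
    · rw [exH_out (by omega)] at h
      have ha := D.aw x h1 h2
      omega
  pL x h1 h2 h := by
    rw [exH_in h1 h2] at h ⊢
    by_cases hi : D.p ≤ x - 1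
    · rw [exH_in hi (by omega)] at h
      have hp := D.pup x (by omega) h2 h
      have ha := D.aw x h1 h2
      have hl := D.hlo x h1 h2
      rw [nuH_box O (by unfold HWin.InZ; omega), fill_in h1 h2 (by omega)]
      cases hc : D.c x
      · rw [hc] at hp
        simp only [Bool.false_eq_true, iff_false] at hp
        rw [decide_eq_true (by omega)]; rfl
      · rw [hc] at hp
        simp only [iff_true] at hp
        rw [decide_eq_false (by omega)]; rfl
    · rw [exH_out (by omega)] at h
      have ha := D.aw x h1 h2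
      omega
  fR x y h h1 h2 hn := by
    obtain ⟨z1, z2, z3, f1, f2⟩ := behR O h h1 h2
    constructor
    · rw [← nuH_par O z1 z3 f2 (by omega), hn]
    · rw [nuH_not O z2 z1 f1.symm (by omega), hn]; rfl
  fL x y h h1 h2 hn := by
    obtain ⟨z1, z2, z3, f1, f2⟩ := behL O h h1 h2
    constructor
    · rw [← nuH_par O z1 z3 f2 (by omega), hn]
    · rw [nuH_not O z2 z1 f1.symm (by omega), hn]; rfl

section

variable {D : HWin} (O : HOut D) {τ : ℤ → ℤ} {x y : ℤ}

theorem inE_iff (H : HPos D τ) :
    D.InE τ x y ↔ (profH O).InU x y ∨ (profH O).InV (exH D τ) x y := by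
  have hh := D.hh
  unfold Prof.InU Prof.InV HWin.InE HWin.InU HWin.RS HWin.RN HWin.RL HWin.RR
  simp only [profH]
  by_cases hx : D.p ≤ x ∧ x < D.q
  · obtain ⟨h1, h2⟩ := hx
    have ha := D.aw x h1 h2
    have hl := H.lo x h1 h2
    rw [exH_in h1 h2]
    by_cases e1 : D.p ≤ x - 1
    · have u1 := H.up (x - 1) e1 (by omega)
      have u2 := H.lo (x - 1) e1 (by omega)
      rw [sub_add_cancel] at u1
      rw [exH_in (x := x - 1) e1 (by omega)]
      by_cases e2 : x + 1 < D.q
      · have u3 := H.dn x h1 e2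
        rw [exH_in (x := x + 1) (by omega) e2]
        omega
      · rw [exH_out (x := x + 1) (by omega)]
        omega
    · rw [exH_out (x := x - 1) (by omega)]
      by_cases e2 : x + 1 < D.q
      · have u3 := H.dn x h1 e2
        rw [exH_in (x := x + 1) (by omega) e2]
        omega
      · rw [exH_out (x := x + 1) (by omega)]
        omega
  · rw [exH_out (x := x) (by omega)]
    by_cases e1 : x + 1 = D.p
    · rw [exH_in (x := x + 1) (by omega) (by omega), exH_out (x := x - 1) (by omega), e1]
      omega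
    · rw [exH_out (x := x + 1) (by omega)]
      by_cases e2 : x = D.q
      · rw [exH_in (x := x - 1) (by omega) (by omega), e2]
        omega
      · rw [exH_out (x := x - 1) (by omega)]
        omega

theorem tA_iff (H : HPos D τ) :
    D.TA τ x y ↔ y + 2 ≤ exH D D.a x ∧ exH D τ (x - 1) = y + 1 := by
  have hh := D.hh
  unfold HWin.TA
  by_cases e1 : D.p ≤ x - 1 ∧ x - 1 < D.q
  · have u2 := H.lo (x - 1) e1.1 e1.2
    have u4 := H.hi (x - 1) e1.1 e1.2
    rw [exH_in e1.1 e1.2]
    by_cases e2 : x < D.q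
    · have u1 := H.up (x - 1) e1.1 (by omega)
      rw [sub_add_cancel] at u1
      have hl := H.lo x (by omega) e2
      rw [exH_in (x := x) (by omega) e2]
      omega
    · have e3 : x = D.q := by omega
      rw [exH_out (x := x) (by omega), e3]
      rw [e3] at u4
      omega
  · rw [exH_out (x := x - 1) (by omega)]
    have ha := exa_le D x
    by_cases e2 : D.p ≤ x ∧ x < D.q
    · have ha := D.aw x e2.1 e2.2
      rw [exH_in e2.1 e2.2]
      omega
    · omega

theorem tB_iff (H : HPos D τ) :
    D.TB τ x y ↔ y + 2 ≤ exH D D.a x ∧ exH D τ (x + 1) = y + 1 := by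
  have hh := D.hh
  unfold HWin.TB
  by_cases e1 : D.p ≤ x + 1 ∧ x + 1 < D.q
  · have u2 := H.lo (x + 1) e1.1 e1.2
    have u4 := H.hi (x + 1) e1.1 e1.2
    rw [exH_in e1.1 e1.2]
    by_cases e2 : D.p ≤ x
    · have u1 := H.dn x e2 e1.2
      have hl := H.lo x e2 (by omega)
      rw [exH_in (x := x) e2 (by omega)]
      omega
    · have e3 : x + 1 = D.p := by omega
      rw [exH_out (x := x) (by omega), e3]
      rw [e3] at u4
      omega
  · rw [exH_out (x := x + 1) (by omega)]
    by_cases e2 : D.p ≤ x ∧ x < D.q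
    · have ha := D.aw x e2.1 e2.2
      rw [exH_in e2.1 e2.2]
      omega
    · have ha := exa_le D x
      omega

theorem mem_WH_iff : lt (x, y) ∈ D.WH τ O.Wo ↔ D.InO τ x y ∨ lt (x, y) ∈ O.Wo := by
  unfold HWin.WH
  rw [Finset.mem_union, HWin.mem_WR]

theorem TA_z (H : HPos D τ) (h : D.TA τ x y) : D.InZ x y := by
  have hh := D.hh
  unfold HWin.InZ
  rcases h with ⟨h1, h2, h3, h4⟩ | ⟨h1, h2⟩
  · have k1 := H.lo (x - 1) (by omega) (by omega)
    have k2 := D.hlo (x - 1) (by omega) (by omega)
    have k3 := H.hi (x - 1) (by omega) (by omega)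
    omega
  · have k1 := H.lo (D.q - 1) (by omega) (by omega)
    have k2 := D.hlo (D.q - 1) (by omega) (by omega)
    have k3 := H.hi (D.q - 1) (by omega) (by omega)
    omega

theorem TB_z (H : HPos D τ) (h : D.TB τ x y) : D.InZ x y := by
  have hh := D.hh
  unfold HWin.InZ
  rcases h with ⟨h1, h2, h3, h4⟩ | ⟨h1, h2⟩
  · have k1 := H.lo (x + 1) (by omega) (by omega)
    have k2 := D.hlo (x + 1) (by omega) (by omega)
    have k3 := H.hi (x + 1) (by omega) (by omega)
    omega
  · have k1 := H.lo D.p (by omega) (by omega)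
    have k2 := D.hlo D.p (by omega) (by omega)
    have k3 := H.hi D.p (by omega) (by omega)
    omega

theorem stoH_TA (H : HPos D τ) (h : D.TA τ x y) :
    sto (D.EH τ) (D.WH τ O.Wo) (x, y) = some false := by
  have hz := TA_z H h
  rw [sto_some]
  refine ⟨by rw [HWin.mem_EH H]; exact h.not_InE H, ?_⟩
  have : lt (x, y) ∈ D.WH τ O.Wo ↔ ¬ (x + y) % 2 = 1 := by
    rw [mem_WH_iff]
    unfold HWin.InO
    have h1 := h.not_InE H
    have h2 := h.not_TB H
    constructor
    · rintro (⟨-, -, ⟨-, h3⟩ | ⟨h3, -⟩ | ⟨h3, -⟩⟩ | h3)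
      · omega
      · exact absurd h3 h2
      · exact absurd h h3
      · exact absurd hz (O.far _ _ h3)
    · intro h3
      exact Or.inl ⟨hz, h1, Or.inl ⟨h, by omega⟩⟩
  simp only [this]
  by_cases hp : (x + y) % 2 = 1 <;> simp [hp]

theorem stoH_TB (H : HPos D τ) (h : D.TB τ x y) :
    sto (D.EH τ) (D.WH τ O.Wo) (x, y) = some true := by
  have hz := TB_z H h
  rw [sto_some]
  refine ⟨by rw [HWin.mem_EH H]; exact h.not_InE H, ?_⟩
  have : lt (x, y) ∈ D.WH τ O.Wo ↔ (x + y) % 2 = 1 := by
    rw [mem_WH_iff]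
    unfold HWin.InO
    have h1 := h.not_InE H
    constructor
    · rintro (⟨-, -, ⟨h3, -⟩ | ⟨-, h3⟩ | ⟨-, h3, -⟩⟩ | h3)
      · exact absurd h (h3.not_TB H)
      · exact h3
      · exact absurd h h3
      · exact absurd hz (O.far _ _ h3)
    · intro h3
      exact Or.inl ⟨hz, h1, Or.inr (Or.inl ⟨h, h3⟩)⟩
  simp only [this]
  by_cases hp : (x + y) % 2 = 1 <;> simp [hp]

theorem stoH_nu (H : HPos D τ) (h1 : ¬ D.InE τ x y) (h2 : ¬ D.TA τ x y) (h3 : ¬ D.TB τ x y) :
    sto (D.EH τ) (D.WH τ O.Wo) (x, y) = some (nuH O (x, y)) := by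
  rw [sto_some]
  refine ⟨by rw [HWin.mem_EH H]; exact h1, ?_⟩
  by_cases hz : D.InZ x y
  · have : lt (x, y) ∈ D.WH τ O.Wo ↔ D.fill x y = true := by
      rw [mem_WH_iff]
      unfold HWin.InO
      constructor
      · rintro (⟨-, -, ⟨h, -⟩ | ⟨h, -⟩ | ⟨-, -, h⟩⟩ | h)
        · exact absurd h h2
        · exact absurd h h3
        · exact h
        · exact absurd hz (O.far _ _ h)
      · intro h
        exact Or.inl ⟨hz, h1, Or.inr (Or.inr ⟨h2, h3, h⟩)⟩
    rw [nuH_box O hz]
    simp only [this]
    simp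
  · have : lt (x, y) ∈ D.WH τ O.Wo ↔ lt (x, y) ∈ O.Wo := by
      rw [mem_WH_iff]
      unfold HWin.InO
      constructor
      · rintro (⟨h, -⟩ | h)
        · exact absurd h hz
        · exact h
      · exact Or.inr
    unfold nuH
    rw [if_neg hz]
    simp only [this]

/-- **The states of the tiles** -/
theorem sto_eqH (H : HPos D τ) : sto (D.EH τ) (D.WH τ O.Wo) = (profH O).σg (exH D τ) := by
  funext ⟨x, y⟩
  have i1 := inE_iff O H (x := x) (y := y)
  have i2 : D.TA τ x y ↔ y + 2 ≤ (profH O).A x ∧ exH D τ (x - 1) = y + 1 := tA_iff H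
  have i3 : D.TB τ x y ↔ y + 2 ≤ (profH O).A x ∧ exH D τ (x + 1) = y + 1 := tB_iff H
  unfold Prof.σg
  simp only
  by_cases h1 : D.InE τ x y
  · rw [if_pos (i1.1 h1), sto_none, HWin.mem_EH H]
    exact h1
  rw [if_neg (fun h => h1 (i1.2 h))]
  by_cases h2 : D.TA τ x y
  · rw [if_pos (i2.1 h2)]
    exact stoH_TA O H h2
  rw [if_neg (fun h => h2 (i2.2 h))]
  by_cases h3 : D.TB τ x y
  · rw [if_pos (i3.1 h3)]
    exact stoH_TB O H h3
  rw [if_neg (fun h => h3 (i3.2 h))]
  exact stoH_nu O H h1 h2 h3

/-- **One component** -/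
theorem rise_of_hstep (H : HPos D τ) {j x₁ x₂ : ℤ} (S : HStep D τ j x₁ x₂) :
    (profH O).Rise (exH D (push τ j x₁ x₂)) (exH D τ) j x₁ x₂ where
  ab := S.x12
  jH := by
    have h1 := H.hi x₁ S.x0 (lt_of_lt_of_le S.x12 S.xq)
    have h2 := S.tau x₁ le_rfl S.x12
    simp only [profH]
    omega
  ge x := by
    have H' := S.pos H
    simp only [profH]
    by_cases h : D.p ≤ x ∧ x < D.q
    · rw [exH_in h.1 h.2, exH_in h.1 h.2]
      exact H'.lo x h.1 h.2
    · rw [exH_out (by omega), exH_out (by omega)]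
  io x h1 h2 := by
    have e1 := S.x0
    have e2 := S.xq
    simp only [profH]
    rw [exH_in (by omega) (by omega), exH_in (by omega) (by omega), exH_in (by omega) (by omega)]
    exact ⟨S.room x h1 h2, push_in h1 h2, S.tau x h1 h2⟩
  out x h := by
    unfold exH
    rw [push_out h]
  la := by
    have e1 := S.x0
    have e2 := S.xq
    have e3 := S.x12
    have h1 := H.hi x₁ S.x0 (lt_of_lt_of_le S.x12 S.xq)
    have h2 := S.tau x₁ le_rfl S.x12
    simp only [profH]
    by_cases h : D.p < x₁
    · rw [exH_in (by omega) (by omega)]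
      exact S.left h
    · rw [exH_out (by omega)]
      omega
  lb := by
    have e1 := S.x0
    have e2 := S.xq
    have e3 := S.x12
    have h1 := H.hi x₁ S.x0 (lt_of_lt_of_le S.x12 S.xq)
    have h2 := S.tau x₁ le_rfl S.x12
    simp only [profH]
    by_cases h : x₂ < D.q
    · rw [exH_in (by omega) (by omega)]
      exact S.right h
    · rw [exH_out (by omega)]
      omega

/-- **The environments of two neighbouring positions of the line differ in a strip.** -/
theorem strip_of_hstep (H : HPos D τ) {j x₁ x₂ : ℤ} (S : HStep D τ j x₁ x₂) :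
    Strip (sto (D.EH (push τ j x₁ x₂)) (D.WH (push τ j x₁ x₂) O.Wo))
      (sto (D.EH τ) (D.WH τ O.Wo)) x₁ x₂ j
      true (decide (exH D D.a (x₁ - 1) = j + 1)) (!nuH O (x₁ - 1, j - 1))
      true (decide (exH D D.a x₂ = j + 1)) (nuH O (x₂, j - 1)) := by
  rw [sto_eqH O H, sto_eqH O (S.pos H)]
  exact (rise_of_hstep O H S).strip

end

end Pool.Agent.H64.W
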