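import Pool.Agent.H64.W.LocK
import Pool.Agent.H64.Win.Inc

set_option autoImplicit false
open Finset

/-!
# The increments at a corner which is not inside the box

`IsPl X E W` : the path of the environment is the orbit of `nx (ω ∪ W)`. `far_inc` : if two environments
agree outside a box (`LocK`) and their increments at the corresponding ends are the same, then the
increments at every corner which is not inside the box are the same.
-/

namespace Pool.Agent.H64.W

open Pool.Agent.H81.G1 Pool.Agent.Q1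
open Pool.Agent.H33.Q1 (lt tt lt_inj tt_lt)
open Pool.Agent.H75.Perc hiding ph
open Pool.Agent.H75.TwoArm
open Pool.Agent.H64.Win (sto sto_none sto_some IsEnv State End Yk G Pa nb op nb_nb op_op ce_nb inq_nb nx_ce
  inq_mate plab_ce)
open Pool.Agent.H74.R45 (ce inq ve he)

/-- the path is the orbit of `nx (ω ∪ W)` -/
structure IsPl (X : Env) (E0 W : Finset (ℤ × ℤ)) : Prop extends IsEnv X E0 W where
  zs : ∀ ω ⊆ E0, ∀ i, X.z ω (i + 1) = nx (ω ∪ W) (X.z ω i)
  Ks : ∀ ω ⊆ E0, ∀ i, X.K ω (i + 1) = X.K ω i + del (ω ∪ W) (X.z ω i)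

section plane

variable {E W : Finset (ℤ × ℤ)} {c0 : ℤ × ℤ} {k0 : ℤ} {g : ℤ × ℤ}
    {hE : ∀ e ∈ E, (e.1 + e.2) % 2 = 1} {hd : Disjoint E W} {hk : k0 % 4 = ty c0}
    {hroot : plab c0 ∉ E} {hg : DCo (E ∪ W) (fi c0) g}
    {hlow : ∀ v, Co (E ∪ W) (vx c0) v → g.2 < v.2}

theorem isPl_plane : IsPl (Env.plane E W c0 k0 g hE hd hk hroot hg hlow) E W where
  E := rfl
  out _ := rfl
  dout _ := rfl
  zs ω hω i := by
    rw [plane_z hω, plane_z hω, Function.iterate_succ_apply']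
  Ks ω hω i := by
    rw [plane_K hω, plane_K hω, KK_succ, plane_z hω]

end plane

variable {X X' : Env} {E W E' W' : Finset (ℤ × ℤ)} {ω : Finset (ℤ × ℤ)} {c : ℤ × ℤ}

theorem nx_det (hω : ω ⊆ E) (h : lab c ∉ E) : nx (ω ∪ W) c = nx W c := by
  unfold nx
  by_cases h1 : lab c ∈ W
  · rw [if_pos h1, if_pos (mem_union_right _ h1)]
  · rw [if_neg h1, if_neg]
    rw [mem_union, not_or]
    exact ⟨fun h2 => h (hω h2), h1⟩

theorem del_det (hω : ω ⊆ E) (h : lab c ∉ E) : del (ω ∪ W) c = del W c := by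
  unfold del
  by_cases h1 : lab c ∈ W
  · rw [if_pos h1, if_pos (mem_union_right _ h1)]
  · rw [if_neg h1, if_neg]
    rw [mem_union, not_or]
    exact ⟨fun h2 => h (hω h2), h1⟩

/-- one deterministic step -/
theorem incO_stepP (P : IsPl X E W) (hω : ω ⊆ E) (hl : lab c ∉ E) (h0 : nx W c ≠ X.c0) :
    X.incO ω (nx W c) = ph (del W c) * X.incO ω c := by
  have hω' : ω ⊆ X.E := by rw [P.E]; exact hω
  have hn := nx_det (W := W) hω hl
  have hdl := del_det (W := W) hω hl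
  by_cases hv : ∃ i < X.len ω, X.z ω i = c
  · obtain ⟨i, hi, hz⟩ := hv
    have h1 : X.z ω (i + 1) = nx W c := by rw [P.zs ω hω, hz, hn]
    have h2 : i + 1 < X.len ω := by
      rcases Nat.lt_or_ge (i + 1) (X.len ω) with h | h
      · exact h
      · exfalso
        have : i + 1 = X.len ω := by omega
        rw [this, Env.z_len hω'] at h1
        exact h0 h1.symm
    rw [Env.incO_of hω' h2 h1, Env.incO_of hω' hi hz, P.Ks ω hω, hz, hdl, ph_add, mul_comm]
  · push Not at hv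
    rw [Env.incO_zero hv, mul_zero]
    apply Env.incO_zero
    intro i hi h
    rcases Nat.eq_zero_or_pos i with rfl | hpos
    · exact h0 (by rw [← h]; rfl)
    · obtain ⟨k, rfl⟩ : ∃ k, i = k + 1 := ⟨i - 1, by omega⟩
      rw [P.zs ω hω, ← hn] at h
      exact hv k (by omega) (nx_injective _ h)

/-- the last deterministic step -/
theorem incO_lastP (P : IsPl X E W) (hω : ω ⊆ E) (hl : lab c ∉ E) (h0 : nx W c = X.c0) :
    X.incO ω c = ph (X.k0 + X.T - del W c) := by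
  have hω' : ω ⊆ X.E := by rw [P.E]; exact hω
  have hn := nx_det (W := W) hω hl
  have hdl := del_det (W := W) hω hl
  have hpos := Env.len_pos hω'
  obtain ⟨k, hk⟩ : ∃ k, X.len ω = k + 1 := ⟨X.len ω - 1, by omega⟩
  have h1 := Env.z_len hω'
  rw [hk, P.zs ω hω, ← h0, ← hn] at h1
  have h2 := nx_injective _ h1
  rw [Env.incO_of hω' (by omega) h2]
  congr 1
  have h3 := Env.K_len hω'
  rw [hk, P.Ks ω hω, h2, hdl] at h3
  omega

theorem incO_rootP (P : IsPl X E W) (hω : ω ⊆ E) : X.incO ω X.c0 = ph X.k0 := by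
  have hω' : ω ⊆ X.E := by rw [P.E]; exact hω
  rw [Env.incO_of hω' (Env.len_pos hω') (Env.z_zero (X := X)), Env.K_zero]

/-! ### Ends -/

/-- outgoing ends are fixed by their corner -/
theorem ce_inj {z z' : End} (h1 : inq z.1 z.2 = false) (h2 : inq z'.1 z'.2 = false)
    (h : ce z.1 z.2 = ce z'.1 z'.2) : z = z' := by
  have e1 := plab_ce h1
  rw [h, plab_ce h2] at e1
  have e2 := lt_inj e1
  obtain ⟨⟨x, y⟩, d⟩ := z
  obtain ⟨⟨x', y'⟩, d'⟩ := z'
  simp only [Prod.mk.injEq] at e2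
  obtain ⟨rfl, rfl⟩ := e2
  congr 1
  simp only at h
  cases d <;> cases d' <;> first
    | rfl
    | (exfalso
       unfold ce ve he at h
       simp only [Prod.mk.injEq] at h
       omega)

theorem step_end {z : End} {b : Bool} (hz : inq z.1 z.2 = false) (h : sto E W (nb z.1 z.2) = some b) :
    lab (ce z.1 z.2) ∉ E ∧ nx W (ce z.1 z.2) = ce (nb z.1 z.2) ((op z.2).mate b) ∧
      del W (ce z.1 z.2) = (op z.2).tn b ∧ inq (nb z.1 z.2) ((op z.2).mate b) = false := by
  have h2 : inq (nb z.1 z.2) (op z.2) = true := by rw [inq_nb, hz]; rfl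
  obtain ⟨h3, h4⟩ := sto_some.1 h
  obtain ⟨a1, a2, a3⟩ := nx_ce W h2
  rw [← h4, ce_nb] at a2
  rw [← h4, ce_nb] at a3
  rw [ce_nb] at a1
  exact ⟨by rw [a1]; exact h3, a2, a3, by rw [inq_mate, h2]; rfl⟩

theorem lab_ce {z : End} (hz : inq z.1 z.2 = false) : lab (ce z.1 z.2) = lt (nb z.1 z.2) := by
  have h2 : inq (nb z.1 z.2) (op z.2) = true := by rw [inq_nb, hz]; rfl
  obtain ⟨a1, a2, a3⟩ := nx_ce ∅ h2
  rwa [ce_nb] at a1

theorem P1.cons {σ : State} {z y : End} {b : Bool} (h : σ (nb z.1 z.2) = some b)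
    (H : P1 σ (nb z.1 z.2, (op z.2).mate b) y) : P1 σ z y := by
  obtain ⟨b', t', h', H'⟩ := H
  exact ⟨b, _, h, Pa.cons h' H'⟩

theorem P1.snoc {σ : State} {z y : End} {b : Bool} (H : P1 σ z y) (h : σ (nb y.1 y.2) = some b) :
    P1 σ z (nb y.1 y.2, (op y.2).mate b) := by
  obtain ⟨b', t', h', H'⟩ := H
  exact ⟨b', _, h', H'.trans (Pa.cons h (Pa.nil _))⟩

theorem ty_mod4 (c : ℤ × ℤ) : ty c % 4 = ty c := by
  rcases ty_cases c with h | h | h | h <;> rw [h.1] <;> norm_num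

/-- a wire from an outgoing end to a random tile which does not pass the root -/
theorem incO_G (P : IsPl X E W) {z0 : End} (h0 : ce z0.1 z0.2 = X.c0) (hz0 : inq z0.1 z0.2 = false)
    {z w : End} {t : ℤ} (h : G (sto E W) z w t) :
    inq z.1 z.2 = false → ¬ P1 (sto E W) z z0 →
      (∀ ω ⊆ E, X.incO ω (ce w.1 w.2) = ph t * X.incO ω (ce z.1 z.2)) ∧
      (ty (ce z.1 z.2) + t) % 4 = ty (ce w.1 w.2) := by
  induction h with
  | @stop z h1 =>
    intro hz _
    simp only [ce_nb, ph_zero, one_mul, implies_true, add_zero, true_and]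
    exact ty_mod4 _
  | @pass z w b t h1 H ih =>
    intro hz hp
    obtain ⟨s1, s2, s3, s4⟩ := step_end hz h1
    obtain ⟨i1, i2⟩ := ih s4 (fun h => hp (P1.cons h1 h))
    have hne : nx W (ce z.1 z.2) ≠ X.c0 := by
      rw [s2, ← h0]
      intro h
      have := ce_inj (z := (nb z.1 z.2, (op z.2).mate b)) s4 hz0 h
      apply hp
      rw [← this]
      exact ⟨b, 0, h1, Pa.nil _⟩
    constructor
    · intro ω hω
      have := incO_stepP P hω s1 hne
      rw [s2, s3] at this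
      rw [i1 ω hω, this, ph_add]
      ring
    · have := ty_nx W (ce z.1 z.2) _ (ty_mod4 _)
      rw [s2, s3] at this
      simp only at i2
      omega

/-- a wire which meets neither a random tile nor the root -/
theorem incO_none (P : IsPl X E W) {z0 : End} (h0 : ce z0.1 z0.2 = X.c0)
    (hz0 : inq z0.1 z0.2 = false) {z : End} (hz : inq z.1 z.2 = false)
    (hG : ∀ w t, ¬ G (sto E W) z w t) (hP : ¬ P1 (sto E W) z z0) (hω : ω ⊆ E) :
    X.incO ω (ce z.1 z.2) = 0 := by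
  have hω' : ω ⊆ X.E := by rw [P.E]; exact hω
  apply Env.incO_zero
  intro i hi h
  have key : ∀ k : ℕ, ∃ y : End, inq y.1 y.2 = false ∧ X.z ω (i + k) = ce y.1 y.2 ∧
      ((k = 0 ∧ y = z) ∨ (0 < k ∧ P1 (sto E W) z y)) ∧ ∀ w t, ¬ G (sto E W) y w t := by
    intro k
    induction k with
    | zero => exact ⟨z, hz, h, Or.inl ⟨rfl, rfl⟩, hG⟩
    | succ k ih =>
      obtain ⟨y, y1, y2, y3, y4⟩ := ih
      cases hb : sto E W (nb y.1 y.2) with
      | none => exact absurd (G.stop hb) (y4 _ _)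
      | some b =>
        obtain ⟨s1, s2, s3, s4⟩ := step_end y1 hb
        refine ⟨(nb y.1 y.2, (op y.2).mate b), s4, ?_, Or.inr ⟨by omega, ?_⟩,
          fun w t hw => y4 w _ (G.pass hb hw)⟩
        · rw [← add_assoc, P.zs ω hω, y2, nx_det hω s1, s2]
        · rcases y3 with ⟨-, rfl⟩ | ⟨-, y3⟩
          · exact ⟨b, 0, hb, Pa.nil _⟩
          · exact y3.snoc hb
  obtain ⟨y, y1, y2, y3, -⟩ := key (X.len ω - i)
  rw [show i + (X.len ω - i) = X.len ω by omega, Env.z_len hω', ← h0] at y2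
  have := ce_inj hz0 y1 y2
  subst this
  rcases y3 with ⟨y3, -⟩ | ⟨-, y3⟩
  · omega
  · exact hP y3

/-- a wire which leads to the root -/
theorem incO_to_root {K : ℤ × ℤ → Prop} {En : End → End → ℤ → Prop} (P : IsPl X E W)
    (P' : IsPl X' E' W') (L : LocK (sto E W) (sto E' W') K En) {z0 : End}
    (h0 : ce z0.1 z0.2 = X.c0) (h0' : ce z0.1 z0.2 = X'.c0) (hz0 : inq z0.1 z0.2 = false)
    (k0 : X.k0 = X'.k0) (T0 : X.T = X'.T) {z y : End} {t : ℤ} (h : Pa (sto E W) z y t) :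
    y = z0 → Yk K z → Yk K z0 → inq z.1 z.2 = false →
    ∃ v, (∀ ω ⊆ E, X.incO ω (ce z.1 z.2) = v) ∧ ∀ ω ⊆ E', X'.incO ω (ce z.1 z.2) = v := by
  induction h with
  | nil z =>
    rintro rfl _ _ _
    refine ⟨ph X.k0, fun ω hω => ?_, fun ω hω => ?_⟩
    · rw [h0]; exact incO_rootP P hω
    · rw [h0', k0]; exact incO_rootP P' hω
  | @cons z y b t h1 H ih =>
    intro hy kz kz0 hz
    obtain ⟨g1, g2⟩ := L.one kz (hy ▸ kz0) h1 H
    obtain ⟨s1, s2, s3, s4⟩ := step_end hz h1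
    obtain ⟨s1', s2', s3', -⟩ := step_end hz g1
    by_cases hr : ce (nb z.1 z.2) ((op z.2).mate b) = X.c0
    · refine ⟨ph (X.k0 + X.T - (op z.2).tn b), fun ω hω => ?_, fun ω hω => ?_⟩
      · have := incO_lastP P hω s1 (by rw [s2]; exact hr)
        rwa [s3] at this
      · have := incO_lastP P' hω s1' (by rw [s2', ← h0', h0]; exact hr)
        rw [s3'] at this
        rw [k0, T0]
        exact this
    · obtain ⟨v, v1, v2⟩ := ih hy g2 kz0 s4
      refine ⟨ph (-((op z.2).tn b)) * v, fun ω hω => ?_, fun ω hω => ?_⟩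
      · have := incO_stepP P hω s1 (by rw [s2]; exact hr)
        rw [s2, s3, v1 ω hω] at this
        rw [this, ← mul_assoc, ← ph_add, neg_add_cancel, ph_zero, one_mul]
      · have := incO_stepP P' hω s1' (by rw [s2', ← h0', h0]; exact hr)
        rw [s2', s3', v2 ω hω] at this
        rw [this, ← mul_assoc, ← ph_add, neg_add_cancel, ph_zero, one_mul]

theorem zt_ph {n t : ℤ} (h : n % 24 = (4 * t) % 24) : zt ^ n = ph t := by
  obtain ⟨k, hk⟩ : ∃ k, n = 4 * t + 24 * k := ⟨(n - 4 * t) / 24, by omega⟩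
  rw [hk, zpow_add₀ zt_ne, Pool.Agent.H81.G1.zt_24, mul_one, ← Pool.Agent.H81.G1.ph_zt]

/-- **The increments at a corner which is not inside the box.** -/
theorem far_inc {K : ℤ × ℤ → Prop} {En : End → End → ℤ → Prop} (P : IsPl X E W)
    (P' : IsPl X' E' W') (L : LocK (sto E W) (sto E' W') K En) {z0 : End}
    (h0 : ce z0.1 z0.2 = X.c0) (h0' : ce z0.1 z0.2 = X'.c0) (hz0 : inq z0.1 z0.2 = false)
    (k0 : X.k0 = X'.k0) (T0 : X.T = X'.T) (kz0 : Yk K z0) {q q' : ℤ × ℤ → ℂ}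
    (hs : ∀ w w' δ, En w w' δ → X'.incW q' (ce w'.1 w'.2) =
      zt ^ (6 * (ty (ce w'.1 w'.2) - ty (ce w.1 w.2)) + 2 * δ) * X.incW q (ce w.1 w.2))
    {z : End} (hz : inq z.1 z.2 = false) (kz : Yk K z) :
    X'.incW q' (ce z.1 z.2) = X.incW q (ce z.1 z.2) := by
  have const : ∀ v : ℂ, (∀ ω ⊆ E, X.incO ω (ce z.1 z.2) = v) →
      (∀ ω ⊆ E', X'.incO ω (ce z.1 z.2) = v) → X'.incW q' (ce z.1 z.2) = X.incW q (ce z.1 z.2) := by
    intro v h1 h2
    unfold Env.incW
    rw [Ec_congr (F := fun ω => X'.incO ω (ce z.1 z.2)) (G := fun _ => v)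
        (fun ω hω => h2 ω (by rw [← P'.E]; exact hω)),
      Ec_congr (F := fun ω => X.incO ω (ce z.1 z.2)) (G := fun _ => v)
        (fun ω hω => h1 ω (by rw [← P.E]; exact hω)), Ec_const, Ec_const]
  by_cases hP : P1 (sto E W) z z0
  · obtain ⟨b, t, h1, H⟩ := hP
    obtain ⟨v, v1, v2⟩ := incO_to_root P P' L h0 h0' hz0 k0 T0 (Pa.cons h1 H) rfl kz kz0 hz
    exact const v v1 v2
  have hP' : ¬ P1 (sto E' W') z z0 := by
    rintro ⟨b, t, h1, H⟩
    obtain ⟨g1, g2⟩ := L.symm.one kz kz0 h1 H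
    exact hP ⟨b, t, g1, L.symm.path H g2 kz0⟩
  by_cases hG : ∃ w t, G (sto E W) z w t
  · obtain ⟨w, t, hG⟩ := hG
    obtain ⟨w', δ, e1, e2⟩ := L.main hG kz
    obtain ⟨f1, f2⟩ := incO_G P h0 hz0 hG hz hP
    obtain ⟨f1', f2'⟩ := incO_G P' h0' hz0 e2 hz hP'
    have F : X.incW q (ce w.1 w.2) = ph t * X.incW q (ce z.1 z.2) := by
      unfold Env.incW
      rw [← Ec_smul]
      exact Ec_congr fun ω hω => f1 ω (by rw [← P.E]; exact hω)
    have F' : X'.incW q' (ce w'.1 w'.2) = ph (t - δ) * X'.incW q' (ce z.1 z.2) := by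
      unfold Env.incW
      rw [← Ec_smul]
      exact Ec_congr fun ω hω => f1' ω (by rw [← P'.E]; exact hω)
    have key := hs w w' δ e1
    rw [F, F', ← mul_assoc, zt_ph (t := -δ) (by omega), ← ph_add,
      show -δ + t = t - δ by ring] at key
    exact mul_left_cancel₀ (ph_ne _) key
  · have hG' : ∀ w t, ¬ G (sto E' W') z w t := by
      intro w t h
      obtain ⟨w', δ, -, e2⟩ := L.symm.main h kz
      exact hG ⟨_, _, e2⟩
    push Not at hG
    exact const 0 (fun ω hω => incO_none P h0 hz0 hz hG hP hω)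
      (fun ω hω => incO_none P' h0' hz0 hz hG' hP' hω)

end Pool.Agent.H64.W
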