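import Pool.Agent.H64.W.FixH
import Pool.Agent.H64.W.Far
import Pool.Agent.H25.W.Track

set_option autoImplicit false
open Finset

/-!
# The increments at the corners outside of the window

`OutC D c` : one of the two labels at the corner `c` is not in the box of the window. `FN_far`, `FS_far`,
`FS_far'` : the increments at such a corner are the same for all positions of the line (with a string: on
the same side of its end). `exF_inc` : the functional `incO` at such a corner is an instance of `ExF` of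
helper25. There is no condition on the wires of the outside.
-/

namespace Pool.Agent.H64.W

open Pool.Agent.H75.Perc hiding ph
open Pool.Agent.H75.TwoArm Pool.Agent.Q1
open Pool.Agent.H33.Q1 (lt tt lt_inj tt_lt)
open Pool.Agent.H81.G1
open Pool.Agent.H54.W Pool.Agent.H21.W.Tau Pool.Agent.H21.W.TauPos
open Pool.Agent.H64.Win (sto sto_none sto_some IsEnv State Strip End Ends Kb Yk bi bi_le nb op plab_ce ce_surj)
open Pool.Agent.H64.Q1 (wa)
open Pool.Agent.H74.R45 (ce inq ve he)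
open Pool.Agent.H34.W (lRt rRt aH str opw cfgH wtH wtS cwS_nat cwS_str hasW_qH hasW_opw)

variable {D : HWin} {O : HOut D} {σ τ ρ : ℤ → ℤ} {x y i j x₁ x₂ : ℤ} {u ζ : ℂ} {c : ℤ × ℤ}

/-- one of the labels at the corner `c` is not in the box -/
def OutC (D : HWin) (c : ℤ × ℤ) : Prop := lab c ∉ D.GA ∨ plab c ∉ D.GA

theorem isPl_XH (O : HOut D) (τ : ℤ → ℤ) : IsPl (HWin.XH O τ) (D.EH τ) (D.WH τ O.Wo) := isPl_plane

/-- the edge is not inside the box of a step -/
theorem OutC.yk (h : OutC D c) (H : HPos D τ) (S : HStep D τ j x₁ x₂) {cL cR : Bool} {z : End}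
    (hz : ce z.1 z.2 = c) (hi : inq z.1 z.2 = false) : Yk (Kb x₁ x₂ j cL cR) z := by
  rintro ⟨h1, h2⟩
  have k1 := KbH_Z H S h1
  have k2 := KbH_Z H S h2
  subst hz
  rcases h with h | h
  · rw [lab_ce hi] at h
    apply h
    have : lt ((nb z.1 z.2).1, (nb z.1 z.2).2) ∈ D.GA := HWin.mem_GA.2 k2
    exact this
  · rw [plab_ce hi] at h
    apply h
    have : lt (z.1.1, z.1.2) ∈ D.GA := HWin.mem_GA.2 k1
    exact this

/-- **One step**, a corner outside of the window. -/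
theorem far_step (O : HOut D) (H : HPos D τ) (S : HStep D τ j x₁ x₂) {q q' : ℤ × ℤ → ℂ}
    (hs : ∀ w w' δ, EndsH O τ j x₁ x₂ w w' δ → (HWin.XH O τ).incW q' (ce w'.1 w'.2) =
      zt ^ (6 * (ty (ce w'.1 w'.2) - ty (ce w.1 w.2)) + 2 * δ) *
        (HWin.XH O (push τ j x₁ x₂)).incW q (ce w.1 w.2)) (hc : OutC D c) :
    (HWin.XH O τ).incW q' c = (HWin.XH O (push τ j x₁ x₂)).incW q c := by
  obtain ⟨z0, r1, r2, r3⟩ := root_exH O
  obtain ⟨z, z1, z2⟩ := ce_surj c
  rw [← z1]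
  exact far_inc (isPl_XH O _) (isPl_XH O _) (strip_locK (stripH O H S)) (z0 := z0) r1 r1 r2 rfl rfl
    (fun hK => r3 (KbH_Z H S hK.1)) hs z2 (hc.yk H S z1 z2)

/-- **Comparable positions**, a corner outside of the window. -/
theorem StepF.far {F : (ℤ → ℤ) → ℤ × ℤ → ℂ} (hF : StepF O F σ τ) {Q : (ℤ → ℤ) → ℤ × ℤ → ℂ}
    (hQ : ∀ ρ, F ρ = (HWin.XH O ρ).incW (Q ρ)) (H : HPos D τ) (H' : HPos D σ)
    (hle : ∀ x, D.p ≤ x → x < D.q → σ x ≤ τ x) (hc : OutC D c) : F σ c = F τ c := by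
  refine hpos_induction (P := fun ρ => F ρ c = F τ c) H H' hle rfl ?_ ?_
  · intro ρ ρ' he hP
    rw [hF.congr ρ ρ' he]
    exact hP
  · intro ρ i x₁ x₂ Hρ hb hP S hi
    rw [← hP, hQ, hQ]
    refine (far_step O Hρ S (fun w w' δ h => ?_) hc).symm
    have := hF.step ρ i x₁ x₂ Hρ hb S hi w w' δ h
    rwa [hQ, hQ] at this

/-- **Two positions**, a corner outside of the window. -/
theorem ExcF.far {F : (ℤ → ℤ) → ℤ × ℤ → ℂ} {R : (ℤ → ℤ) → Prop} (hF : ExcF O F R)
    {Q : (ℤ → ℤ) → ℤ × ℤ → ℂ} (hQ : ∀ ρ, F ρ = (HWin.XH O ρ).incW (Q ρ)) (H : HPos D τ)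
    (H' : HPos D σ) (r : R τ) (r' : R σ) (hc : OutC D c) : F σ c = F τ c := by
  have hm := hpos_max H H'
  have rm := hF.max σ τ r' r
  rw [(hF.step σ _ (fun x _ _ => le_max_left _ _) r' rm).far hQ hm H' (fun x _ _ => le_max_left _ _) hc,
    (hF.step τ _ (fun x _ _ => le_max_right _ _) r rm).far hQ hm H (fun x _ _ => le_max_right _ _) hc]

/-- **The natural increments outside of the window** do not depend on the position of the line. -/
theorem FN_far (hu : Complex.sin (2 * u) ≠ 0) (H : HPos D τ) (H' : HPos D σ) (hc : OutC D c) :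
    FN O u σ c = FN O u τ c :=
  (excFN O hu).far (fun _ => rfl) H H' trivial trivial hc

/-- The increments outside of the window, the line is below the string. -/
theorem FS_far (hu : Complex.sin (2 * u) ≠ 0) (hζ : Pool.Agent.H11.W.Fz ζ) {x0 s : ℤ}
    (hp : D.p ≤ x0) (hq : x0 < D.q) (hs : D.a x0 ≤ s) (H : HPos D τ) (H' : HPos D σ)
    (h : τ x0 ≤ s) (h' : σ x0 ≤ s) (hc : OutC D c) :
    FS O u ζ x0 s σ c = FS O u ζ x0 s τ c :=
  (excFS O hu hζ hp hq hs).far (fun _ => rfl) H H' h h' hc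

/-- The increments outside of the window, the line crosses the string. -/
theorem FS_far' (hu : Complex.sin (2 * u) ≠ 0) (hζ : Pool.Agent.H11.W.Fz ζ) {x0 s : ℤ}
    (hp : D.p ≤ x0) (hq : x0 < D.q) (hs : D.a x0 ≤ s) (H : HPos D τ) (H' : HPos D σ)
    (h : s < τ x0) (h' : s < σ x0) (hc : OutC D c) :
    FS O u ζ x0 s σ c = FS O u ζ x0 s τ c :=
  (excFS' O hu hζ hp hq hs).far (fun _ => rfl) H H' h h' hc

theorem plane_incO_congr {E W E' W' : Finset (ℤ × ℤ)} {c0 : ℤ × ℤ} {k0 : ℤ} {g : ℤ × ℤ}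
    {hE : ∀ e ∈ E, (e.1 + e.2) % 2 = 1} {hd : Disjoint E W} {hk : k0 % 4 = ty c0}
    {hroot : plab c0 ∉ E} {hg : DCo (E ∪ W) (fi c0) g}
    {hlow : ∀ v, Co (E ∪ W) (vx c0) v → g.2 < v.2}
    {hE' : ∀ e ∈ E', (e.1 + e.2) % 2 = 1} {hd' : Disjoint E' W'} {hk' : k0 % 4 = ty c0}
    {hroot' : plab c0 ∉ E'} {hg' : DCo (E' ∪ W') (fi c0) g}
    {hlow' : ∀ v, Co (E' ∪ W') (vx c0) v → g.2 < v.2} (h1 : E = E') (h2 : W = W') :
    (Env.plane E W c0 k0 g hE hd hk hroot hg hlow).incO =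
      (Env.plane E' W' c0 k0 g hE' hd' hk' hroot' hg' hlow').incO := by
  subst h1 h2
  rfl

/-- **The functional `incO` at a corner outside of the window is exchangeable.** -/
theorem exF_inc (O : HOut D) (hu : Complex.sin (2 * u) ≠ 0) (hζ : Pool.Agent.H11.W.Fz ζ) {x0 s : ℤ}
    (hp : D.p ≤ x0) (hq : x0 < D.q) (hs : D.a x0 ≤ s) (hc : OutC D c) :
    Pool.Agent.H25.W.ExF D (fun τ ω => (HWin.XH O τ).incO ω c) x0 s (wa u)
      (wa (u + Real.pi / 2)) (wa (u - Real.pi / 2)) (1 - ζ) where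
  congr τ τ' h := by
    have e : (HWin.XH O τ').incO = (HWin.XH O τ).incO :=
      plane_incO_congr (EH_congr h) (by unfold HWin.WH; rw [WR_congr h])
    funext ω
    rw [e]
  step τ i x₁ x₂ H S h := by
    obtain ⟨z0, r1, r2, r3⟩ := root_exH O
    refine (far_step O H S (q := opw (str x0 s (1 - ζ) (aH D (push τ i x₁ x₂) (wa u)
      (wa (u + Real.pi / 2)) (wa (u - Real.pi / 2))))) (fun w w' δ he => ?_) hc).symm
    exact Pool.Agent.H93.W.strip_incW (cfgH O H S (stripH O H S)) (cwS_str hu hζ x₁ x₂ x0 s i)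
      (wtS H S _ _ _ hp hq hs h) (hasW_opw _ _) (hasW_opw _ _) rfl rfl r1 r1 r2
      (fun hK => r3 (KbH_Z H S hK.1)) he

end Pool.Agent.H64.W
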