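import Mathlib
import Pool.Agent.H86.W.TOk
import Pool.Agent.H76.W.SegZ
import Pool.Agent.H30.W.Slit

set_option autoImplicit false
open Finset

/-! # The left over labels of a window with a horizontal line

`NrH D τ G` : tiles near the levels. `left_nearH` : a random tile of the tied form which is not a bulk tile, not
a tile of the row and not a tie of a run is in `NrH`. `cs_card` : there are at most `3844 |G|` of them.
`TG_slit` : the canonical levels of a window with a row and a string, at most `stp D + 4` of them,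
`stp D` : number of steps of the floor. -/

namespace Pool.Agent.H64.W

open Pool.Agent.H75.Perc hiding AR VV
open Pool.Agent.H75.TwoArm hiding EF
open Pool.Agent.Q1 Pool.Agent.H33.Q1
open Pool.Agent.H54.W Pool.Agent.H54.W.HWin Pool.Agent.H76.W Pool.Agent.H86.W
open Pool.Agent.H46.G1 (Wp mem_Wp)
open Pool.Agent.H46.Sp (nxt nxt_le nxt_mem le_nxt not_lev Kd TSys)
open Pool.Agent.H42.Sp (Sd Ix kt rt kt_odd rt_even)
open Pool.Agent.H74.R45 (exists_lt)
open Pool.Agent.H30.W (XS)

variable {D : HWin} {τ : ℤ → ℤ} {G : Finset ℤ} {N : ℕ} {x0 y0 x y g t i j : ℤ} {a : Rh G}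
  {P : Finset Ix}

/-! ### Tiles near the levels -/

/-- the four heights -/
def v4 (D : HWin) (τ : ℤ → ℤ) (x : ℤ) (i : Fin 4) : ℤ :=
  if i = 0 then D.a x else if i = 1 then te D τ x else if i = 2 then te D τ (x + 1)
  else te D τ (x - 1)

/-- tiles near the levels -/
noncomputable def NrH (D : HWin) (τ : ℤ → ℤ) (G : Finset ℤ) : Finset (ℤ × ℤ) :=
  ((G ×ˢ Finset.Icc (-15 : ℤ) 15) ×ˢ ((univ : Finset (Fin 4)) ×ˢ Finset.Icc (-15 : ℤ) 15)).image
    fun p => (p.1.1 + p.1.2, v4 D τ (p.1.1 + p.1.2) p.2.1 + p.2.2)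

lemma card_NrH : (NrH D τ G).card ≤ 3844 * G.card := by
  unfold NrH
  refine card_image_le.trans ?_
  have h : (Finset.Icc (-15 : ℤ) 15).card = 31 := by rw [Int.card_Icc]; rfl
  rw [card_product, card_product, card_product, h, card_univ, Fintype.card_fin]
  omega

lemma mem_NrH (hg : g ∈ G) (h1 : g - 15 ≤ x) (h2 : x ≤ g + 15)
    (h : (D.a x - 15 ≤ y ∧ y ≤ D.a x + 15) ∨ (te D τ x - 15 ≤ y ∧ y ≤ te D τ x + 15) ∨
      (te D τ (x + 1) - 15 ≤ y ∧ y ≤ te D τ (x + 1) + 15) ∨
      (te D τ (x - 1) - 15 ≤ y ∧ y ≤ te D τ (x - 1) + 15)) : (x, y) ∈ NrH D τ G := by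
  have key : ∀ i : Fin 4, v4 D τ x i - 15 ≤ y → y ≤ v4 D τ x i + 15 → (x, y) ∈ NrH D τ G := by
    intro i h3 h4
    unfold NrH
    refine mem_image.2 ⟨((g, x - g), (i, y - v4 D τ x i)), ?_, ?_⟩
    · rw [mem_product, mem_product, mem_product, Finset.mem_Icc, Finset.mem_Icc]
      exact ⟨⟨hg, by simp only; omega, by simp only; omega⟩, mem_univ _, by simp only; omega,
        by simp only; omega⟩
    · simp only [add_sub_cancel]
  rcases h with h | h | h | h
  · exact key 0 h.1 h.2
  · exact key 1 h.1 h.2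
  · exact key 2 h.1 h.2
  · exact key 3 h.1 h.2

/-! ### The first layer of a run -/

/-- **A tile of the first layer of a run**, not near its ends, is a tie or is not random. -/
theorem first_noH (H : HPos D τ) (hG : TLev D τ G) (hPr : ∀ k, CPH D τ k → k ∈ P)
    (hE : lt (x, y) ∈ ETH D τ P) (hT : lt (x, y) ∉ (tsys D τ G).Ti)
    (hact : tact D τ a.2.1 a.1) (he : (tsys D τ G).tl a (-1) t = (x, y)) :
    t < tlo D τ a.2.1 a.1 + 5 ∨ thi D τ G a.2.1 a.1 < t + 7 := by
  by_contra hcon
  push Not at hcon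
  obtain ⟨h1, h2⟩ := hcon
  obtain ⟨k, k1, -, k2, k3, k4⟩ := capT_at (t := t) H hG hact (by omega) (by omega)
  rcases Int.emod_two_eq_zero_or_one (((tsys D τ G).tl a (-1) t).1 +
    ((tsys D τ G).tl a (-1) t).2) with hp | hp
  · have h3 := k4 hp
    rw [he] at h3
    unfold ETH at hE
    refine (mem_sdiff.1 hE).2 ?_
    rw [← h3]
    exact mem_image_of_mem _ (hPr k k1)
  · have h4 := tsys_par (D := D) (τ := τ) (G := G) (a := a)
    have h5 : (t - (tsys D τ G).q a) % 2 = 0 := by
      unfold Kd.Par at h4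
      unfold TSys.tl at hp
      generalize (tsys D τ G).k a = k at *
      generalize (tsys D τ G).p a = p at *
      cases k <;> simp only [Kd.tau] at h4 hp <;> omega
    have e1 : (tsys D τ G).q a = tq D τ a.2.1 a.1 := rfl
    have e2 : ((tsys D τ G).N a : ℤ) = ((thi D τ G a.2.1 a.1 - 4 - tq D τ a.2.1 a.1) / 2).toNat := by
      change ((tN D τ G a.2.1 a.1 : ℕ) : ℤ) = _
      unfold tN
      rw [if_pos hact]
    have e3 : tq D τ a.2.1 a.1 ≤ tlo D τ a.2.1 a.1 + 5 := by
      unfold tq; omega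
    refine hT (TSys.mem_Ti.2 ⟨(a, (t - (tsys D τ G).q a) / 2), ?_, ?_⟩)
    · rw [mem_Wp]
      simp only
      rw [e2]
      omega
    · unfold TSys.tie TSys.til
      rw [← he]
      simp only
      congr 2
      omega

/-- **The left over tiles are near the levels.** -/
theorem left_nearH (H : HPos D τ) (hG : TLev D τ G) (hPr : ∀ k, CPH D τ k → k ∈ P)
    (hE : lt (x, y) ∈ ETH D τ P) (hT : lt (x, y) ∉ (tsys D τ G).Ti) (hB : ¬ Bul D τ x y)
    (hR : D.p ≤ x → x < D.q → y = τ x - 1 → τ x = D.a x) : (x, y) ∈ NrH D τ G := by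
  have hh := D.hh
  have key := fun (t : ℤ) (a : Rh G) => first_noH (t := t) (a := a) H hG hPr hE hT
  have hE' := (mem_EH H).1 (ETH_sub hE)
  rcases hE' with h | h | h | h | h
  · -- the floor
    obtain ⟨h1, h2, h3, h4⟩ := id h
    have h5 : y = τ x - 1 := by
      by_contra h6
      exact hB ⟨h, h6⟩
    have h6 := hR h1 h2 h5
    obtain ⟨g, hg, g1, g2⟩ := hG.exists_lev h1 h2
    have e1 := hG.eqs hg g1 g2
    have g3 := nxt_mem (G := G) (g := g) (by omega)
    have g4 := hG.nxt_q (g := g) (by omega)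
    have h7 := key x (false, ⟨g, hg⟩) ⟨by show g < D.q; omega, by show τ g = D.a g; omega⟩
      (by rw [ttl_F]; congr 1; omega)
    change x < g + 5 ∨ nxt G g < x + 7 at h7
    rcases h7 with h7 | h7
    · exact mem_NrH hg (by omega) (by omega) (Or.inl ⟨by omega, by omega⟩)
    · exact mem_NrH g3 (by omega) (by omega) (Or.inl ⟨by omega, by omega⟩)
  · -- run to the south, left wall of a column
    obtain ⟨h1, h2, h3, h4⟩ := h
    have hlt : te D τ (x + 1) < te D τ (x + 1 - 1) := by
      rw [add_sub_cancel_right, te_in (by omega) h2, te_in h1 (by omega)]; omega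
    have hg : x + 1 ∈ G := hG.jump (by omega) (by omega) (by omega)
    have h7 := key y (true, ⟨x + 1, hg⟩) (by show te D τ (x + 1 - 1) ≠ te D τ (x + 1); omega)
      (by rw [ttl_L hlt]; congr 1; ring)
    change y < min (te D τ (x + 1 - 1)) (te D τ (x + 1)) + 5 ∨
      max (te D τ (x + 1 - 1)) (te D τ (x + 1)) < y + 7 at h7
    rw [add_sub_cancel_right] at h7 hlt
    rw [min_eq_right hlt.le, max_eq_left hlt.le] at h7
    have e1 := te_in (D := D) (τ := τ) h1 (by omega)
    have e2 := te_in (D := D) (τ := τ) (x := x + 1) (by omega) h2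
    rcases h7 with h7 | h7
    · exact mem_NrH hg (by omega) (by omega) (Or.inr (Or.inr (Or.inl ⟨by omega, by omega⟩)))
    · exact mem_NrH hg (by omega) (by omega) (Or.inr (Or.inl ⟨by omega, by omega⟩))
  · -- run to the north, right wall of a column
    obtain ⟨h1, h2, h3, h4⟩ := h
    have hlt : te D τ (x - 1) < te D τ x := by
      rw [te_in (by omega) (by omega), te_in (by omega) h2]; omega
    have hg : x ∈ G := hG.jump (by omega) (by omega) (by omega)
    have h7 := key y (true, ⟨x, hg⟩) (by show te D τ (x - 1) ≠ te D τ x; omega)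
      (by rw [ttl_R (by omega)]; congr 1; ring)
    change y < min (te D τ (x - 1)) (te D τ x) + 5 ∨
      max (te D τ (x - 1)) (te D τ x) < y + 7 at h7
    rw [min_eq_left hlt.le, max_eq_right hlt.le] at h7
    have e1 := te_in (D := D) (τ := τ) (x := x) (by omega) h2
    have e2 := te_in (D := D) (τ := τ) (x := x - 1) (by omega) (by omega)
    rcases h7 with h7 | h7
    · exact mem_NrH hg (by omega) (by omega) (Or.inr (Or.inr (Or.inr ⟨by omega, by omega⟩)))
    · exact mem_NrH hg (by omega) (by omega) (Or.inr (Or.inl ⟨by omega, by omega⟩))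
  · -- left side of the window
    obtain ⟨h1, h3, h4⟩ := h
    have e1 := te_in (D := D) (τ := τ) (x := D.p) le_rfl (by omega)
    have e2 := te_lt (D := D) (τ := τ) (x := D.p - 1) (by omega)
    have hlt : te D τ D.p < te D τ (D.p - 1) := by omega
    have h7 := key y (true, ⟨D.p, hG.p⟩) (by show te D τ (D.p - 1) ≠ te D τ D.p; omega)
      (by rw [ttl_L hlt, h1]; congr 1)
    change y < min (te D τ (D.p - 1)) (te D τ D.p) + 5 ∨
      max (te D τ (D.p - 1)) (te D τ D.p) < y + 7 at h7
    rw [min_eq_right hlt.le, max_eq_left hlt.le] at h7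
    have e3 : te D τ (x + 1) = τ D.p := by rw [h1, sub_add_cancel]; exact e1
    have e4 : te D τ x = D.w := by rw [h1]; exact e2
    rcases h7 with h7 | h7
    · exact mem_NrH hG.p (by omega) (by omega) (Or.inr (Or.inr (Or.inl ⟨by omega, by omega⟩)))
    · exact mem_NrH hG.p (by omega) (by omega) (Or.inr (Or.inl ⟨by omega, by omega⟩))
  · -- right side of the window
    obtain ⟨h1, h3, h4⟩ := h
    have e1 := te_in (D := D) (τ := τ) (x := D.q - 1) (by omega) (by omega)
    have e2 := te_ge (D := D) (τ := τ) (x := D.q) le_rfl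
    have hlt : te D τ (D.q - 1) < te D τ D.q := by omega
    have h7 := key y (true, ⟨D.q, hG.q⟩) (by show te D τ (D.q - 1) ≠ te D τ D.q; omega)
      (by rw [ttl_R (by omega), h1]; congr 1; ring)
    change y < min (te D τ (D.q - 1)) (te D τ D.q) + 5 ∨
      max (te D τ (D.q - 1)) (te D τ D.q) < y + 7 at h7
    rw [min_eq_left hlt.le, max_eq_right hlt.le] at h7
    have e3 : te D τ (x - 1) = τ (D.q - 1) := by rw [h1]; exact e1
    have e4 : te D τ x = D.w := by rw [h1]; exact e2
    rcases h7 with h7 | h7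
    · exact mem_NrH hG.q (by omega) (by omega) (Or.inr (Or.inr (Or.inr ⟨by omega, by omega⟩)))
    · exact mem_NrH hG.q (by omega) (by omega) (Or.inr (Or.inl ⟨by omega, by omega⟩))

/-- **The left over labels**, the line is straight on the row and follows the floor elsewhere. -/
theorem cs_card {J : Type*} [Fintype J] [DecidableEq J] {l2 : J → ℤ × ℤ} (H : HPos D τ)
    (hG : TLev D τ G) (h : Seg D τ N x0 y0)
    (hx : ∀ x, D.p ≤ x → x < D.q → ¬ (x0 ≤ x ∧ x < x0 + N) → τ x = D.a x)
    (hPr : ∀ k, CPH D τ k → k ∈ P) :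
    (CSz D τ N x0 y0 l2 P (tsys D τ G).Ti).card ≤ 3844 * G.card := by
  refine le_trans ?_ (card_NrH (D := D) (τ := τ))
  refine le_trans (card_le_card (t := (NrH D τ G).image lt) ?_) card_image_le
  intro e he
  unfold CSz at he
  rw [mem_sdiff, mem_union, mem_union, mem_union] at he
  push Not at he
  obtain ⟨he, ⟨hR, hX⟩, hT, hB⟩ := he
  obtain ⟨x, y, rfl⟩ := exists_lt (odd_EH (ETH_sub he))
  refine mem_image_of_mem _ (left_nearH H hG hPr he hT (fun hb => hB ?_) fun h1 h2 h3 => ?_)
  · unfold BKz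
    exact mem_sdiff.2 ⟨(mem_BKs H).2 hb, hX⟩
  · by_contra h4
    by_cases h5 : x0 ≤ x ∧ x < x0 + N
    · refine hR (mem_RSz.2 ⟨h5.1, h5.2, ?_⟩)
      have := h.tau x h5.1 h5.2
      omega
    · exact h4 (hx x h1 h2 h5)

/-- **The left over labels**, for the set of all caps. -/
theorem cs_card' {J : Type*} [Fintype J] [DecidableEq J] {l2 : J → ℤ × ℤ} (H : HPos D τ)
    (hG : TLev D τ G) (h : Seg D τ N x0 y0)
    (hx : ∀ x, D.p ≤ x → x < D.q → ¬ (x0 ≤ x ∧ x < x0 + N) → τ x = D.a x) :
    (CSz D τ N x0 y0 l2 (CPHs D τ) (tsys D τ G).Ti).card ≤ 3844 * G.card :=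
  cs_card H hG h hx fun _ hk => (mem_CPHs H).2 hk

/-- **The number of ties of a run.** -/
theorem tN_size (H : HPos D τ) (hG : TLev D τ G) (a : Rh G) :
    ((tsys D τ G).N a : ℤ) ≤ (D.q - D.p) + (D.w - D.lo) := by
  have hh := D.hh
  have hl := D.hlo D.p le_rfl (by omega)
  have hw := D.aw D.p le_rfl (by omega)
  have n0 := hG.lo a.2.1 a.2.2
  have n1 := hG.hi a.2.1 a.2.2
  by_cases h : 0 < (tsys D τ G).N a
  swap
  · omega
  have h2 := tN_pos h
  have h3 := tq_lo (D := D) (τ := τ) (g := a.2.1) (v := a.1)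
  have h4 := h2.2
  change tq D τ a.2.1 a.1 + 2 * (((tsys D τ G).N a : ℕ) : ℤ) ≤ _ at h4
  obtain ⟨v, ⟨g, hg⟩⟩ := a
  simp only at n0 n1
  cases v
  · change tq D τ g false + 2 * _ ≤ nxt G g - 4 at h4
    change g + 4 ≤ tq D τ g false at h3
    have n2 : nxt G g ≤ D.q := by
      by_cases h5 : g < nxt G g
      · exact hG.nxt_q h5
      · have := le_nxt (G := G) (g := g)
        omega
    omega
  · change tq D τ g true + 2 * _ ≤ max (te D τ (g - 1)) (te D τ g) - 4 at h4
    change min (te D τ (g - 1)) (te D τ g) + 4 ≤ tq D τ g true at h3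
    have k1 := te_le (x := g - 1) H
    have k2 := te_le (x := g) H
    have k3 := te_lo (x := g - 1) H
    have k4 := te_lo (x := g) H
    omega

/-! ### The levels of a window with a row and a string -/

section slit

open Pool.Agent.H30.W (Slit)

open Classical in
/-- the steps of the floor -/
noncomputable def stp (D : HWin) : Finset ℤ :=
  (Finset.Ioo D.p D.q).filter fun x => D.a (x - 1) ≠ D.a x

lemma mem_stp : x ∈ stp D ↔ (D.p < x ∧ x < D.q) ∧ D.a (x - 1) ≠ D.a x := by
  classical
  unfold stp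
  rw [mem_filter, Finset.mem_Ioo]

/-- the row is a straight piece of the line -/
private theorem seg_s (S : Slit D) : Seg D S.τ S.N S.x1 S.y0 where
  lo := S.p_le
  hi := by
    have := S.N_eq; have := S.le_q
    omega
  tau := fun x h1 h2 => S.τ_in h1 (by have := S.N_eq; omega)
  fl := fun x h1 h2 => by
    have := S.fl x h1 (by have := S.N_eq; omega)
    have := S.r2
    omega

/-- **The number of the canonical levels.** -/
theorem TG_slit (S : Slit D) : (TG D S.τ).card ≤ (stp D).card + 4 := by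
  classical
  have hsub : TG D S.τ ⊆ stp D ∪ {D.p, D.q, S.xs, S.xs + 1} := by
    intro x hx
    rw [mem_union, mem_insert, mem_insert, mem_insert, mem_singleton]
    rcases mem_TG.1 hx with h | h | ⟨⟨h1, h2⟩, h3⟩
    · exact Or.inr (Or.inl h)
    · exact Or.inr (Or.inr (Or.inl h))
    by_cases ha : D.a (x - 1) = D.a x
    swap
    · exact Or.inl (mem_stp.2 ⟨⟨h1, h2⟩, ha⟩)
    right
    by_contra h4
    push Not at h4
    obtain ⟨-, -, h5, h6⟩ := h4
    refine h3 ⟨ha, ?_, ?_⟩
    · have r2 := S.r2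
      by_cases c1 : S.x1 ≤ x - 1 ∧ x - 1 < S.x2 <;> by_cases c2 : S.x1 ≤ x ∧ x < S.x2
      · rw [S.τ_in c1.1 c1.2, S.τ_in c2.1 c2.2]
      · exfalso
        have e : x = S.x2 := by omega
        have k1 := S.rgt (by omega)
        have k2 := S.fl (x - 1) c1.1 c1.2
        rw [← e] at k1
        omega
      · exfalso
        have e : x = S.x1 := by omega
        have k1 := S.lft (by omega)
        have k2 := S.fl x c2.1 c2.2
        rw [← e] at k1
        omega
      · rw [S.τ_out c1, S.τ_out c2, ha]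
    · rcases lt_or_gt_of_ne h5 with c | c
      · rw [S.cl (x - 1) (by omega) (by omega), S.cl x (by omega) c]
      · rw [S.cr (x - 1) (by omega) (by omega), S.cr x c h2]
  refine (card_le_card hsub).trans ((card_union_le _ _).trans ?_)
  have : ({D.p, D.q, S.xs, S.xs + 1} : Finset ℤ).card ≤ 4 := card_le_four
  omega

/-- **The left over labels of a window with a row and a string.** -/
theorem cs_slit {J : Type*} [Fintype J] [DecidableEq J] {l2 : J → ℤ × ℤ} (S : Slit D)
    (hPr : ∀ k, CPH D S.τ k → k ∈ P) :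
    (CSz D S.τ S.N S.x1 S.y0 l2 P (tsys D S.τ (TG D S.τ)).Ti).card ≤
      3844 * ((stp D).card + 4) := by
  refine (cs_card S.pos tlev_TG (seg_s S) (fun x h1 h2 h3 => S.τ_out ?_) hPr).trans ?_
  · have := S.N_eq
    omega
  · exact Nat.mul_le_mul_left _ (TG_slit S)

end slit

end Pool.Agent.H64.W
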