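import Mathlib
import Pool.Agent.H76.W.TopZ
import Pool.Agent.H86.W.TFat
import Pool.Agent.H95.W.PosK
import Pool.Agent.H32.W.SlC
import Pool.Agent.H44.W.CloseOff

set_option autoImplicit false
open Finset Filter Topology

/-! # The row with a string through an interior position of a coarse window: numbers

`thin_Zv` : the positions near a level of the floor (`Zv` of helper32) are thin. `size_K` : for `v / n` in a compact
set of the interior, `v` not in `Zv C η n`, there is a row with a string (helper30's `Slit`) of the window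
`(C.win n ..).toH`, string in the column `- v.2 - 1` above the row `v.1 - 1`, for both parities and all
colours at the end of the string, with helper76's numbers `SizeH` at the scale `n`; `NumS` : the row is far from
the floor and the ceiling. -/

namespace Pool.Agent.H64.W

open Pool.Agent.Q1.M4 (lat)
open Pool.Agent.H54.W (CD HWin Win)
open Pool.Agent.H20.W (OmC)
open Pool.Agent.H32.W.Bd (Zv)
open Pool.Agent.H30.W (Slit exists_slit)
open Pool.Agent.H76.W (SizeH)
open Pool.Agent.H86.W (FatH fatH_coarse cns card_cns riseR dropR)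
open Pool.Agent.H44.W (Thin thin_strips)
open Pool.Agent.H95.W (CoarseR pos_K)

/-- **The row is far from the floor and the ceiling.** -/
structure NumS {D : HWin} (S : Slit D) (L : ℤ) : Prop where
  r15 : 15 ≤ S.r
  L16 : 16 ≤ L
  near : ∀ x, S.xs - L ≤ x → x ≤ S.xs + L → D.p ≤ x ∧ x < D.q ∧ D.a x + S.r + 9 ≤ S.y0
  lev : ∀ x, D.p ≤ x → x < D.q → D.a x + S.r + 9 ≤ S.y0 ∨ S.y0 + S.r + 9 ≤ D.a x
  top : S.y0 + S.r + 9 ≤ D.w

/-- few steps of the floor -/
theorem stp_coarse {D : Win} {n H W : ℤ} {A : ℤ → ℤ} (C : CoarseR D n H W A) :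
    (stp D.toH).card ≤ (3 * H).toNat := by
  have h1 : stp D.toH ⊆ cns n H := by
    intro x hx
    rw [mem_stp] at hx
    obtain ⟨⟨h1, h2⟩, h3⟩ := hx
    simp only [Win.toH] at h1 h2 h3
    rw [show -(x - 1) - 1 = -x - 1 + 1 by ring] at h3
    have key : ∀ Y δ, 0 ≤ Y → Y < H → -1 ≤ δ → δ ≤ 1 → -x = n * Y + δ → x ∈ cns n H := by
      intro Y δ k1 k2 k3 k4 k5
      refine mem_image.2 ⟨(Y, δ), ?_, by simp only; omega⟩
      rw [mem_product, Finset.mem_Ico, Finset.mem_Icc]
      exact ⟨⟨k1, k2⟩, k3, k4⟩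
    rcases lt_or_gt_of_ne h3 with h | h
    · obtain ⟨Y, i1, i2, i3, ⟨i4, -⟩ | ⟨i4, -⟩⟩ := dropR C (y := -x - 1) (by omega) (by omega) h
      · exact key (Y + 1) 0 (by omega) i2 (by omega) (by omega) (by omega)
      · exact key (Y + 1) (-1) (by omega) i2 (by omega) (by omega) (by omega)
    · obtain ⟨Y, i1, i2, i3, ⟨i4, -⟩ | ⟨i4, -⟩⟩ := riseR C (y := -x - 1) (by omega) (by omega) h
      · exact key Y 0 i1.le i2 (by omega) (by omega) (by omega)
      · exact key Y 1 i1.le i2 (by omega) (by omega) (by omega)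
  have h2 := card_le_card h1
  have h3 := card_cns (n := n) C.HH.le
  omega

/-- **The positions near the levels are thin.** -/
theorem thin_Zv (C : CD) {R : ℕ → ℝ} {F : Filter ℕ} {Ω : Set ℂ} (hR : Tendsto R F atTop) {n : ℕ → ℤ}
    (hn : ∀ᶠ j in F, R j = (n j : ℝ)) : Thin R F Ω fun η j => Zv C η (n j) := by
  have h := thin_strips (Ω := Ω) hR (n := C.H.toNat) (fun j k => (n j : ℝ) * C.A (k : ℕ))
    (fun j k => (n j : ℝ) * C.A (k : ℕ))
  intro K hK hKc
  obtain ⟨B, hB⟩ := h K hK hKc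
  refine ⟨B, fun η hη => ?_⟩
  filter_upwards [hB η hη, hn] with j h1 h2 S hS
  refine h1 S fun v hv => ⟨(hS v hv).1, ?_⟩
  obtain ⟨Y, i1, i2, i3⟩ := (hS v hv).2
  refine ⟨⟨Y.toNat, by omega⟩, Or.inl ?_⟩
  simp only
  rw [Int.toNat_of_nonneg i1, h2]
  exact i3

/-- **The row with a string through an interior position, with its numbers.** -/
theorem size_K (C : CD) {K : Set ℂ} (hK : K ⊆ OmC C) (hKc : IsCompact K) {η : ℝ} (hη : 0 < η) :
    ∃ (A s n0 : ℕ), ∀ n : ℤ, (n0 : ℤ) ≤ n → ∀ (he : n % 2 = 0) (h8 : 8 ≤ n) (cr : ℤ → Bool)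
      (v : ℤ × ℤ), lat v / ((n : ℝ) : ℂ) ∈ K → v ∉ Zv C η n → ∀ kl kr : Bool,
      (∀ y, v.2 < y → cr y = kl) → (∀ y, y < v.2 → cr y = kr) → ∀ e : ℕ, e ≤ 1 →
      (e = 0 → (((-v.2 - 1 + n * C.W) % 2 = 0 ↔ kl = true) ∧
        ((-v.2 - 1 + n * C.W) % 2 = 1 ↔ kr = true))) →
      ∃ (S : Slit (C.win n he h8 cr).toH) (L : ℤ), S.xs = -v.2 - 1 ∧ S.y0 = v.1 - 1 ∧
        S.e = e ∧ S.kl = kl ∧ S.kr = kr ∧ (S.r : ℝ) ≤ η * n / 2 ∧
        SizeH (C.win n he h8 cr).toH S A s n L ∧ NumS S L := by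
  obtain ⟨δ, hδ, n1, hP⟩ := pos_K C hK hKc
  have hWL : 0 < C.W - C.LO := by
    have h1 := C.AW 0 le_rfl C.H0
    have h2 := C.lo 0 le_rfl C.H0
    omega
  have hH0 : (0 : ℝ) < C.H := by exact_mod_cast C.H0
  have hWL0 : (0 : ℝ) < (C.W : ℝ) - C.LO := by
    have : (0 : ℝ) < ((C.W - C.LO : ℤ) : ℝ) := by exact_mod_cast hWL
    push_cast at this
    exact this
  set ρ : ℝ := min (η / 2) (δ / 2) with hρ
  set lam : ℝ := min (δ / 2) (1 / 4) with hlam
  have hρ0 : 0 < ρ := lt_min (by linarith) (by linarith)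
  have hlam0 : 0 < lam := lt_min (by linarith) (by norm_num)
  have hρ1 : ρ ≤ η / 2 := min_le_left _ _
  have hρ2 : ρ ≤ δ / 2 := min_le_right _ _
  have hl1 : lam ≤ δ / 2 := min_le_left _ _
  have hl2 : lam ≤ 1 / 4 := min_le_right _ _
  obtain ⟨A, hA⟩ := exists_nat_ge ((C.H : ℝ) + (C.W - C.LO) + 1 + 2 / lam + 2 * C.H / ρ)
  obtain ⟨n2, hn2⟩ := exists_nat_ge (16 / ρ + 17 / lam)
  have hq1 : 0 < 2 / lam := by positivity
  have hq2 : 0 < 2 * (C.H : ℝ) / ρ := by positivity
  have hq3 : 0 < 16 / ρ := by positivity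
  have hq4 : 0 < 17 / lam := by positivity
  refine ⟨A, (3 * C.H).toNat, max n1 n2, fun n hn he h8 cr v hv hvZ kl kr hkl hkr e he1 hpar => ?_⟩
  have hn1 : (n1 : ℤ) ≤ n := by
    have := le_max_left n1 n2
    omega
  have hn2' : (n2 : ℤ) ≤ n := by
    have := le_max_right n1 n2
    omega
  obtain ⟨hn0, hpos⟩ := hP n hn1
  have hpos := hpos v hv
  have hnr : (0 : ℝ) < n := by exact_mod_cast hn0
  have hn2r : ((n2 : ℕ) : ℝ) ≤ n := by
    have : (((n2 : ℕ) : ℤ) : ℝ) ≤ n := by exact_mod_cast hn2'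
    simpa using this
  have hρn : 16 ≤ ρ * n := by
    have : 16 / ρ ≤ n := by linarith
    rw [div_le_iff₀ hρ0] at this
    linarith
  have hln : 17 ≤ lam * n := by
    have : 17 / lam ≤ n := by linarith
    rw [div_le_iff₀ hlam0] at this
    linarith
  -- the integers
  set r : ℤ := ⌊ρ * n⌋ with hr
  set L : ℤ := ⌊lam * n⌋ with hL
  have hr1 : (r : ℝ) ≤ ρ * n := Int.floor_le _
  have hr2 : ρ * n < r + 1 := Int.lt_floor_add_one _
  have hL1 : (L : ℝ) ≤ lam * n := Int.floor_le _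
  have hL2 : lam * n < L + 1 := Int.lt_floor_add_one _
  have r15 : 15 ≤ r := by
    have : (15 : ℝ) < r + 1 := by linarith
    have : (15 : ℤ) < r + 1 := by exact_mod_cast this
    omega
  have L16 : 16 ≤ L := by
    have : (16 : ℝ) < L + 1 := by linarith
    have : (16 : ℤ) < L + 1 := by exact_mod_cast this
    omega
  have hδn : 32 ≤ δ * n := by
    have := mul_le_mul_of_nonneg_right hρ2 hnr.le
    linarith
  have hrδ : (r : ℝ) + 8 ≤ δ * n := by
    have := mul_le_mul_of_nonneg_right hρ2 hnr.le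
    linarith
  have hηn : 32 ≤ η * n := by
    have := mul_le_mul_of_nonneg_right hρ1 hnr.le
    linarith
  have hrη : (r : ℝ) ≤ η * n / 2 := by
    have := mul_le_mul_of_nonneg_right hρ1 hnr.le
    linarith
  have hLδ : (L : ℝ) + 1 ≤ δ * n := by
    have := mul_le_mul_of_nonneg_right hl1 hnr.le
    linarith
  have hLn : 2 * L + 2 ≤ n - 2 := by
    have h1 := mul_le_mul_of_nonneg_right hl2 hnr.le
    have h3 : ((4 * L : ℤ) : ℝ) ≤ n := by push_cast; linarith
    have h4 : 4 * L ≤ n := by exact_mod_cast h3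
    omega
  -- the tiles around the position
  have htile : ∀ x y : ℤ, |x - v.1| ≤ r + 8 → |y - v.2| ≤ L + 1 →
      0 ≤ y ∧ y < n * C.H ∧ n * C.A (y / n) ≤ x ∧ x < n * C.W := by
    intro x y h1 h2
    refine hpos x y ?_ ?_
    · have h3 : ((|x - v.1| : ℤ) : ℝ) ≤ ((r + 8 : ℤ) : ℝ) := by exact_mod_cast h1
      rw [Int.cast_abs] at h3
      push_cast at h3 ⊢
      linarith
    · have h3 : ((|y - v.2| : ℤ) : ℝ) ≤ ((L + 1 : ℤ) : ℝ) := by exact_mod_cast h2
      rw [Int.cast_abs] at h3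
      push_cast at h3 ⊢
      linarith
  have habs0 : |v.1 - v.1| ≤ r + 8 := by rw [sub_self, abs_zero]; omega
  have hjj : ∀ j : ℤ, -(L + 1) ≤ j → j ≤ L + 1 → 0 ≤ v.2 + j ∧ v.2 + j < n * C.H ∧
      C.wa n (v.2 + j) ≤ v.1 := by
    intro j k1 k2
    obtain ⟨h1, h2, h3, -⟩ := htile v.1 (v.2 + j) habs0
      (by rw [add_sub_cancel_left]; exact abs_le.2 ⟨k1, k2⟩)
    refine ⟨h1, h2, ?_⟩
    rcases C.wa_cases n (v.2 + j) with ⟨-, e⟩ | ⟨-, e⟩ <;> omega
  have t0 := hjj 0 (by omega) (by omega)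
  have tp := hjj 1 (by omega) (by omega)
  have tm := hjj (-1) (by omega) (by omega)
  have tP := hjj (L + 1) (by omega) (by omega)
  have tM := hjj (-(L + 1)) (by omega) (by omega)
  have hup : v.1 + (r + 8) < n * C.W := by
    refine (htile (v.1 + (r + 8)) v.2 ?_ ?_).2.2.2
    · rw [add_sub_cancel_left, abs_of_pos (by omega)]
    · rw [sub_self, abs_zero]; omega
  -- no level near the row
  have hlev : ∀ y, 0 ≤ y → y < n * C.H → C.wa n y + r + 9 ≤ v.1 - 1 ∨
      v.1 - 1 + r + 9 ≤ C.wa n y := by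
    intro y h0 h1
    have hrow := CD.row_of (C := C) hn0 h0 h1
    have h2 : ¬ |(v.1 : ℝ) - n * C.A (y / n)| ≤ η * n := fun h3 =>
      hvZ ⟨y / n, hrow.1, hrow.2, h3⟩
    rw [not_le, lt_abs] at h2
    rcases h2 with h2 | h2
    · left
      have h3 : ((n * C.A (y / n) + r + 16 : ℤ) : ℝ) < ((v.1 : ℤ) : ℝ) := by
        push_cast
        linarith
      have h4 : n * C.A (y / n) + r + 16 < v.1 := by exact_mod_cast h3
      rcases C.wa_cases n y with ⟨-, e⟩ | ⟨-, e⟩ <;> omega
    · right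
      have h3 : ((v.1 + r + 16 : ℤ) : ℝ) < ((n * C.A (y / n) : ℤ) : ℝ) := by
        push_cast
        linarith
      have h4 : v.1 + r + 16 < n * C.A (y / n) := by exact_mod_cast h3
      rcases C.wa_cases n y with ⟨-, e⟩ | ⟨-, e⟩ <;> omega
  set D : Win := C.win n he h8 cr with hD
  have ep : D.toH.p = -(n * C.H) := rfl
  have eq : D.toH.q = 0 := rfl
  have ew : D.toH.w = n * C.W := rfl
  have ea : ∀ x, D.toH.a x = C.wa n (-x - 1) := fun _ => rfl
  have ecc : ∀ x, D.toH.cc x = cr (-x - 1) := fun _ => rfl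
  obtain ⟨S, s1, s2, s3, s4, s5, s6⟩ := exists_slit (D := D.toH) (xs := -v.2 - 1) (y0 := v.1 - 1)
    (r := r) (e := e) (kl := kl) (kr := kr) he1 (by rw [ep]; omega)
    (by rw [eq]; omega) (by omega) (by rw [ew]; omega)
    (fun x h1 h2 => by
      rw [ea]
      have := hlev (-x - 1) (by rw [eq] at h2; omega) (by rw [ep] at h1; omega)
      omega)
    (by
      rw [ea, show -(-v.2 - 1 - 1) - 1 = v.2 + 1 by ring]
      omega)
    (by
      rw [ea, show -(-v.2 - 1) - 1 = v.2 + 0 by ring]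
      omega)
    (by
      rw [ea, show -(-v.2 - 1 + 1) - 1 = v.2 + -1 by ring]
      omega)
    (fun x h1 h2 => by
      rw [ecc]
      exact hkl _ (by omega))
    (fun x h1 h2 => by
      rw [ecc]
      exact hkr _ (by omega))
    (by rw [ew]; exact hpar)
  have c1 := S.comp.y0
  have c2 := S.comp.yh
  have c3 := S.s1
  have c4 := S.s2
  rw [ep] at c1
  rw [eq] at c2
  rw [s1] at c3 c4
  have hAs : ∀ B : ℝ, B ≤ (C.H : ℝ) + (C.W - C.LO) + 1 + 2 / lam + 2 * C.H / ρ → B * n ≤ A * n :=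
    fun B hB => mul_le_mul_of_nonneg_right (hB.trans hA) hnr.le
  refine ⟨S, L, s1, s2, s4, s5, s6, by rw [s3]; exact hrη, ?_, ?_⟩
  · constructor
    · -- width
      rw [ep, eq]
      have := hAs C.H (by linarith)
      push_cast
      linarith
    · -- height
      have elo : D.toH.lo = n * C.LO - 1 := rfl
      rw [ew, elo]
      have h1 := hAs ((C.W : ℝ) - C.LO + 1) (by linarith)
      have h2 : (1 : ℝ) ≤ n := by
        have : (1 : ℤ) ≤ n := by omega
        exact_mod_cast this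
      push_cast
      linarith
    · omega
    · -- `R ≤ A L`
      have h1 : lam * n ≤ 2 * L := by linarith
      have h2 : (n : ℝ) ≤ 2 / lam * L := by
        rw [div_mul_eq_mul_div, le_div_iff₀ hlam0]
        linarith
      have hL0 : (0 : ℝ) ≤ L := by
        have : (0 : ℤ) ≤ L := by omega
        exact_mod_cast this
      refine h2.trans (mul_le_mul_of_nonneg_right ?_ hL0)
      linarith
    · exact (fatH_coarse (C.coarse he h8 _)).mono hLn
    · -- left end of the row
      rw [s1]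
      by_contra hcon
      by_cases h1 : S.x1 = -(n * C.H)
      · omega
      · have h2 := S.lft (by rw [ep]; omega)
        rw [ea, s2] at h2
        have h3 := hjj (-S.x1 - v.2) (by omega) (by omega)
        rw [show v.2 + (-S.x1 - v.2) = -(S.x1 - 1) - 1 by ring] at h3
        omega
    · -- right end of the row
      rw [s1]
      by_contra hcon
      by_cases h1 : S.x2 = 0
      · omega
      · have h2 := S.rgt (by rw [eq]; omega)
        rw [ea, s2] at h2
        have h3 := hjj (-S.x2 - 1 - v.2) (by omega) (by omega)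
        rw [show v.2 + (-S.x2 - 1 - v.2) = -S.x2 - 1 by ring] at h3
        omega
    · -- the row is not long
      rw [s3]
      have h1 : S.x2 - S.x1 ≤ n * C.H := by omega
      have h2 : ρ * n ≤ 2 * r := by linarith
      have hr0 : (0 : ℝ) ≤ r := by
        have : (0 : ℤ) ≤ r := by omega
        exact_mod_cast this
      have h3 : (n : ℝ) * C.H ≤ 2 * C.H / ρ * r := by
        rw [div_mul_eq_mul_div, le_div_iff₀ hρ0]
        have := mul_le_mul_of_nonneg_left h2 hH0.le
        linarith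
      have h4 : 2 * (C.H : ℝ) / ρ * r ≤ A * r := mul_le_mul_of_nonneg_right (by linarith) hr0
      have h5 : ((S.x2 - S.x1 : ℤ) : ℝ) ≤ ((A * r : ℤ) : ℝ) := by
        have h6 : ((S.x2 - S.x1 : ℤ) : ℝ) ≤ ((n * C.H : ℤ) : ℝ) := by exact_mod_cast h1
        push_cast at h6 ⊢
        linarith
      exact_mod_cast h5
    · exact stp_coarse (C.coarse he h8 _)
  · constructor
    · rw [s3]; exact r15
    · exact L16
    · intro x h1 h2
      rw [s1] at h1 h2
      rw [s2, s3, ea, ep, eq]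
      have h3 := hjj (-x - 1 - v.2) (by omega) (by omega)
      rw [show v.2 + (-x - 1 - v.2) = -x - 1 by ring] at h3
      have h4 := hlev (-x - 1) h3.1 h3.2.1
      omega
    · intro x h1 h2
      rw [s2, s3, ea]
      exact hlev _ (by rw [eq] at h2; omega) (by rw [ep] at h1; omega)
    · rw [s2, s3, ew]; omega

end Pool.Agent.H64.W
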