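import Pool.Agent.H64.W.StripH
import Pool.Agent.H34.W.WtsH
import Pool.Agent.H64.Win.Inc

set_option autoImplicit false

/-!
# The increments at the corners which the line does not touch

`FN O u τ` : the increments of `XH O τ` with the natural weights of the angle `u`, `FS O u ζ x0 s τ` : the
same with a string (column `x0` frozen from the row `s` upwards). `StepF` : the step relation, `stepFN`,
`stepFS`. `FixE O σ τ z` : the end `z` belongs to a random tile for every position between `σ` and `τ`, and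
no step between `σ` and `τ` touches it. `StepF.fix` : then the increments are the same.
-/

namespace Pool.Agent.H64.W

open Pool.Agent.H75.Perc Pool.Agent.H75.TwoArm Pool.Agent.Q1
open Pool.Agent.H33.Q1 (lt tt lt_inj tt_lt)
open Pool.Agent.H81.G1
open Pool.Agent.H54.W Pool.Agent.H21.W.Tau Pool.Agent.H21.W.TauPos
open Pool.Agent.H64.Win (sto sto_none sto_some IsEnv State Strip End Ends Kb Yk bi bi_le nb op plab_ce ce_surj)
open Pool.Agent.H64.Q1 (wa)
open Pool.Agent.H74.R45 (ce inq)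
open Pool.Agent.H34.W (lRt rRt aH str opw cfgH wtH wtS cwS_nat cwS_str hasW_qH hasW_opw)

variable {D : HWin} {O : HOut D} {σ τ ρ : ℤ → ℤ} {x y i j x₁ x₂ : ℤ} {u ζ : ℂ}

theorem exH_decL (H : HPos D τ) (S : HStep D τ j x₁ x₂) :
    decide (exH D D.a (x₁ - 1) = j + 1) = lRt D j x₁ := by
  unfold lRt
  rw [decide_eq_decide]
  have h1 := S.x0
  have h2 := S.x12
  have h3 := S.xq
  have h4 := H.hi x₁ h1 (by omega)
  have h5 := S.tau x₁ le_rfl h2
  by_cases h : D.p < x₁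
  · rw [exH_in (by omega) (by omega)]
    exact ⟨fun h' => ⟨h, h'⟩, fun h' => h'.2⟩
  · rw [exH_out (by omega)]
    constructor
    · intro h'; omega
    · intro h'; exact absurd h'.1 h

theorem exH_decR (H : HPos D τ) (S : HStep D τ j x₁ x₂) :
    decide (exH D D.a x₂ = j + 1) = rRt D j x₂ := by
  unfold rRt
  rw [decide_eq_decide]
  have h1 := S.x0
  have h2 := S.x12
  have h3 := S.xq
  have h4 := H.hi x₁ h1 (by omega)
  have h5 := S.tau x₁ le_rfl h2
  by_cases h : x₂ < D.q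
  · rw [exH_in (by omega) (by omega)]
    exact ⟨fun h' => ⟨h, h'⟩, fun h' => h'.2⟩
  · rw [exH_out (by omega)]
    constructor
    · intro h'; omega
    · intro h'; exact absurd h'.1 h

/-- natural state of the tile behind the left end -/
noncomputable abbrev nL (O : HOut D) (j x₁ : ℤ) : Bool := !nuH O (x₁ - 1, j - 1)

/-- natural state of the tile behind the right end -/
noncomputable abbrev nR (O : HOut D) (j x₂ : ℤ) : Bool := nuH O (x₂, j - 1)

/-- **The environments of a step differ in a strip.** -/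
theorem stripH (O : HOut D) (H : HPos D τ) (S : HStep D τ j x₁ x₂) :
    Strip (sto (D.EH (push τ j x₁ x₂)) (D.WH (push τ j x₁ x₂) O.Wo))
      (sto (D.EH τ) (D.WH τ O.Wo)) x₁ x₂ j true (lRt D j x₁) (nL O j x₁) true (rRt D j x₂)
      (nR O j x₂) := by
  have := strip_of_hstep O H S
  rwa [exH_decL H S, exH_decR H S] at this

/-- corresponding ends of the two environments of a step -/
abbrev EndsH (O : HOut D) (τ : ℤ → ℤ) (j x₁ x₂ : ℤ) : End → End → ℤ → Prop :=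
  Ends (sto (D.EH (push τ j x₁ x₂)) (D.WH (push τ j x₁ x₂) O.Wo))
    (sto (D.EH τ) (D.WH τ O.Wo)) x₁ x₂ j true (lRt D j x₁) (nL O j x₁) true (rRt D j x₂) (nR O j x₂)

/-- the root leaves a tile outside of the box -/
theorem root_exH (O : HOut D) : ∃ z0 : End, ce z0.1 z0.2 = O.c0 ∧ inq z0.1 z0.2 = false ∧
    ¬ D.InZ z0.1.1 z0.1.2 := by
  obtain ⟨z, h1, h2⟩ := ce_surj O.c0
  refine ⟨z, h1, h2, fun h3 => O.hroot ?_⟩
  rw [← h1, plab_ce h2]
  obtain ⟨⟨x, y⟩, e⟩ := z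
  exact HWin.mem_GA.2 h3

/-- the box of a step is in the box of the window -/
theorem KbH_Z (H : HPos D τ) (S : HStep D τ j x₁ x₂) {cL cR : Bool} {q : ℤ × ℤ}
    (h : Kb x₁ x₂ j cL cR q) : D.InZ q.1 q.2 := by
  have k1 := S.x0
  have k2 := S.x12
  have k3 := S.xq
  have k4 := H.hi x₁ k1 (by omega)
  have k5 := S.tau x₁ le_rfl k2
  have k6 := S.room x₁ le_rfl k2
  have k7 := D.hlo x₁ k1 (by omega)
  have k8 := bi_le cL
  have k9 := bi_le cR
  obtain ⟨h2, h3, h4⟩ := h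
  unfold HWin.InZ
  omega

/-! ### The step relation -/

/-- the increments, natural weights -/
noncomputable def FN (O : HOut D) (u : ℂ) (τ : ℤ → ℤ) : ℤ × ℤ → ℂ :=
  (HWin.XH O τ).incW (D.qH τ (wa u) (wa (u + Real.pi / 2)) (wa (u - Real.pi / 2)))

/-- the increments with a string: the column `x0` is frozen from the row `s` upwards -/
noncomputable def FS (O : HOut D) (u ζ : ℂ) (x0 s : ℤ) (τ : ℤ → ℤ) : ℤ × ℤ → ℂ :=
  (HWin.XH O τ).incW (opw (str x0 s (1 - ζ)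
    (aH D τ (wa u) (wa (u + Real.pi / 2)) (wa (u - Real.pi / 2)))))

/-- **The step relation** between the positions `σ ≤ τ` -/
structure StepF (O : HOut D) (F : (ℤ → ℤ) → ℤ × ℤ → ℂ) (σ τ : ℤ → ℤ) : Prop where
  congr : ∀ ρ ρ' : ℤ → ℤ, (∀ x, D.p ≤ x → x < D.q → ρ' x = ρ x) → F ρ' = F ρ
  step : ∀ (ρ : ℤ → ℤ) (i x₁ x₂ : ℤ), HPos D ρ →
    (∀ x, D.p ≤ x → x < D.q → σ x ≤ ρ x ∧ ρ x ≤ τ x) → HStep D ρ i x₁ x₂ →
    (∀ v, x₁ ≤ v → v < x₂ → σ v ≤ i) → ∀ z z' δ, EndsH O ρ i x₁ x₂ z z' δ →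
    F ρ (ce z'.1 z'.2) = zt ^ (6 * (ty (ce z'.1 z'.2) - ty (ce z.1 z.2)) + 2 * δ) *
      F (push ρ i x₁ x₂) (ce z.1 z.2)

section congr

theorem InE_congr (h : ∀ x, D.p ≤ x → x < D.q → σ x = τ x) : D.InE σ x y ↔ D.InE τ x y := by
  have hh := D.hh
  unfold HWin.InE HWin.RS HWin.RN HWin.RL HWin.RR
  have h1 := h D.p le_rfl (by omega)
  have h2 := h (D.q - 1) (by omega) (by omega)
  rw [h1, h2]
  refine or_congr Iff.rfl (or_congr ?_ (or_congr ?_ Iff.rfl))
  · constructor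
    · rintro ⟨a1, a2, a3, a4⟩
      rw [h x a1 (by omega)] at a4
      rw [h (x + 1) (by omega) a2] at a3
      exact ⟨a1, a2, a3, a4⟩
    · rintro ⟨a1, a2, a3, a4⟩
      rw [← h x a1 (by omega)] at a4
      rw [← h (x + 1) (by omega) a2] at a3
      exact ⟨a1, a2, a3, a4⟩
  · constructor
    · rintro ⟨a1, a2, a3, a4⟩
      rw [h x (by omega) a2] at a4
      rw [h (x - 1) (by omega) (by omega)] at a3
      exact ⟨a1, a2, a3, a4⟩
    · rintro ⟨a1, a2, a3, a4⟩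
      rw [← h x (by omega) a2] at a4
      rw [← h (x - 1) (by omega) (by omega)] at a3
      exact ⟨a1, a2, a3, a4⟩

theorem TB_congr (h : ∀ x, D.p ≤ x → x < D.q → σ x = τ x) : D.TB σ x y ↔ D.TB τ x y := by
  have hh := D.hh
  unfold HWin.TB
  rw [h D.p le_rfl (by omega)]
  refine or_congr ?_ Iff.rfl
  constructor
  · rintro ⟨a1, a2, a3, a4⟩
    rw [h x a1 (by omega), h (x + 1) (by omega) a2] at a3
    rw [h (x + 1) (by omega) a2] at a4
    exact ⟨a1, a2, a3, a4⟩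
  · rintro ⟨a1, a2, a3, a4⟩
    rw [← h x a1 (by omega), ← h (x + 1) (by omega) a2] at a3
    rw [← h (x + 1) (by omega) a2] at a4
    exact ⟨a1, a2, a3, a4⟩

theorem TA_congr (h : ∀ x, D.p ≤ x → x < D.q → σ x = τ x) : D.TA σ x y ↔ D.TA τ x y := by
  have hh := D.hh
  unfold HWin.TA
  rw [h (D.q - 1) (by omega) (by omega)]
  refine or_congr ?_ Iff.rfl
  constructor
  · rintro ⟨a1, a2, a3, a4⟩
    rw [h x (by omega) a2, h (x - 1) (by omega) (by omega)] at a3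
    rw [h (x - 1) (by omega) (by omega)] at a4
    exact ⟨a1, a2, a3, a4⟩
  · rintro ⟨a1, a2, a3, a4⟩
    rw [← h x (by omega) a2, ← h (x - 1) (by omega) (by omega)] at a3
    rw [← h (x - 1) (by omega) (by omega)] at a4
    exact ⟨a1, a2, a3, a4⟩

theorem EH_congr (h : ∀ x, D.p ≤ x → x < D.q → σ x = τ x) : D.EH σ = D.EH τ := by
  unfold HWin.EH
  congr 1
  funext x y
  exact propext (InE_congr h)

theorem WR_congr (h : ∀ x, D.p ≤ x → x < D.q → σ x = τ x) : D.WR σ = D.WR τ := by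
  unfold HWin.WR
  congr 1
  funext x y
  unfold HWin.InO
  rw [InE_congr h, TA_congr h, TB_congr h]

theorem wA_congr {a b c : ℂ} (h : ∀ x, D.p ≤ x → x < D.q → σ x = τ x) (x y : ℤ) :
    D.wA σ a b c x y = D.wA τ a b c x y := by
  unfold HWin.wA
  by_cases c1 : x < D.p
  · rw [if_pos c1, if_pos c1]
  by_cases c2 : D.q ≤ x
  · rw [if_neg c1, if_neg c1, if_pos c2, if_pos c2]
  rw [if_neg c1, if_neg c1, if_neg c2, if_neg c2, h x (by omega) (by omega)]
  have e1 : (x + 1 < D.q ∧ σ (x + 1) < τ x) ↔ (x + 1 < D.q ∧ τ (x + 1) < τ x) :=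
    and_congr_right fun h1 => by rw [h (x + 1) (by omega) h1]
  have e2 : (D.p < x ∧ σ (x - 1) < τ x) ↔ (D.p < x ∧ τ (x - 1) < τ x) :=
    and_congr_right fun h1 => by rw [h (x - 1) (by omega) (by omega)]
  simp only [e1, e2]

theorem plane_incW_congr {E W E' W' : Finset (ℤ × ℤ)} {c0 : ℤ × ℤ} {k0 : ℤ} {g : ℤ × ℤ}
    {hE : ∀ e ∈ E, (e.1 + e.2) % 2 = 1} {hd : Disjoint E W} {hk : k0 % 4 = ty c0}
    {hroot : plab c0 ∉ E} {hg : DCo (E ∪ W) (fi c0) g}
    {hlow : ∀ v, Co (E ∪ W) (vx c0) v → g.2 < v.2}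
    {hE' : ∀ e ∈ E', (e.1 + e.2) % 2 = 1} {hd' : Disjoint E' W'} {hk' : k0 % 4 = ty c0}
    {hroot' : plab c0 ∉ E'} {hg' : DCo (E' ∪ W') (fi c0) g}
    {hlow' : ∀ v, Co (E' ∪ W') (vx c0) v → g.2 < v.2} (h1 : E = E') (h2 : W = W')
    {q q' : ℤ × ℤ → ℂ} (h3 : q = q') :
    (Env.plane E W c0 k0 g hE hd hk hroot hg hlow).incW q =
      (Env.plane E' W' c0 k0 g hE' hd' hk' hroot' hg' hlow').incW q' := by
  subst h1 h2 h3
  rfl

theorem XH_congr (h : ∀ x, D.p ≤ x → x < D.q → σ x = τ x) {q q' : ℤ × ℤ → ℂ} (h3 : q = q') :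
    (HWin.XH O σ).incW q = (HWin.XH O τ).incW q' :=
  plane_incW_congr (EH_congr h) (by unfold HWin.WH; rw [WR_congr h]) h3

theorem FN_congr (h : ∀ x, D.p ≤ x → x < D.q → σ x = τ x) : FN O u σ = FN O u τ := by
  refine XH_congr h ?_
  funext e
  unfold HWin.qH
  rw [wA_congr h]

theorem FS_congr {x0 s : ℤ} (h : ∀ x, D.p ≤ x → x < D.q → σ x = τ x) :
    FS O u ζ x0 s σ = FS O u ζ x0 s τ := by
  refine XH_congr h ?_
  congr 1
  congr 1
  funext e
  exact wA_congr h _ _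

end congr

/-- **The natural increments.** -/
theorem stepFN (O : HOut D) (hu : Complex.sin (2 * u) ≠ 0) (σ τ : ℤ → ℤ) :
    StepF O (FN O u) σ τ where
  congr ρ ρ' h := FN_congr h
  step ρ i x₁ x₂ H _ S _ z z' δ h := by
    obtain ⟨z0, r1, r2, r3⟩ := root_exH O
    exact Pool.Agent.H93.W.strip_incW (cfgH O H S (stripH O H S)) (cwS_nat hu x₁ x₂)
      (wtH H S _ _ _) (hasW_qH _ _ _ _) (hasW_qH _ _ _ _) rfl rfl r1 r1 r2
      (fun hK => r3 (KbH_Z H S hK.1)) h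

/-- **The increments with a string.** The line is below the string or crosses it at both positions. -/
theorem stepFS (O : HOut D) (hu : Complex.sin (2 * u) ≠ 0) (hζ : Pool.Agent.H11.W.Fz ζ) {x0 s : ℤ}
    (hp : D.p ≤ x0) (hq : x0 < D.q) (hs : D.a x0 ≤ s) (h : τ x0 ≤ s ∨ s < σ x0) :
    StepF O (FS O u ζ x0 s) σ τ where
  congr ρ ρ' h := FS_congr h
  step ρ i x₁ x₂ H hb S hi z z' δ he := by
    obtain ⟨z0, r1, r2, r3⟩ := root_exH O
    refine Pool.Agent.H93.W.strip_incW (cfgH O H S (stripH O H S)) (cwS_str hu hζ x₁ x₂ x0 s i)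
      (wtS H S _ _ _ hp hq hs ?_) (hasW_opw _ _) (hasW_opw _ _) rfl rfl r1 r1 r2
      (fun hK => r3 (KbH_Z H S hK.1)) he
    have h1 := hb x0 hp hq
    rcases h with h | h
    · exact Or.inl (by omega)
    · right
      by_cases hx : x₁ ≤ x0 ∧ x0 < x₂
      · rw [push_in hx.1 hx.2]
        have := hi x0 hx.1 hx.2
        omega
      · rw [push_out (by omega)]
        omega

/-! ### Ends which are not touched -/

/-- the end `z` belongs to a random tile and is not touched between `σ` and `τ` -/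
def FixE (O : HOut D) (σ τ : ℤ → ℤ) (z : End) : Prop :=
  ∀ ρ : ℤ → ℤ, HPos D ρ → (∀ x, D.p ≤ x → x < D.q → σ x ≤ ρ x ∧ ρ x ≤ τ x) →
    D.InE ρ z.1.1 z.1.2 ∧ ∀ i x₁ x₂, HStep D ρ i x₁ x₂ → (∀ v, x₁ ≤ v → v < x₂ → σ v ≤ i) →
      Yk (Kb x₁ x₂ i (nL O i x₁) (nR O i x₂)) z

/-- **The increments at an end which is not touched.** -/
theorem StepF.fix {F : (ℤ → ℤ) → ℤ × ℤ → ℂ} (hF : StepF O F σ τ) (H : HPos D τ) (H' : HPos D σ)
    (hle : ∀ x, D.p ≤ x → x < D.q → σ x ≤ τ x) {z : End} (hz : FixE O σ τ z) :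
    F σ (ce z.1 z.2) = F τ (ce z.1 z.2) := by
  refine hpos_induction (P := fun ρ => F ρ (ce z.1 z.2) = F τ (ce z.1 z.2)) H H' hle rfl ?_ ?_
  · intro ρ ρ' he hP
    rw [hF.congr ρ ρ' he]
    exact hP
  · intro ρ i x₁ x₂ Hρ hb hP S hi
    rw [← hP]
    obtain ⟨e1, e2⟩ := hz ρ Hρ hb
    have hb' : ∀ x, D.p ≤ x → x < D.q → σ x ≤ push ρ i x₁ x₂ x ∧ push ρ i x₁ x₂ x ≤ τ x := by
      intro x h1 h2
      have h3 := hb x h1 h2
      by_cases hx : x₁ ≤ x ∧ x < x₂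
      · have h4 := hi x hx.1 hx.2
        have h5 := S.tau x hx.1 hx.2
        rw [push_in hx.1 hx.2]
        omega
      · rw [push_out (by omega)]
        exact h3
    obtain ⟨e3, -⟩ := hz _ (S.pos Hρ) hb'
    have key := hF.step ρ i x₁ x₂ Hρ hb S hi z z 0 (Or.inl ⟨rfl, rfl,
      sto_none.2 ((HWin.mem_EH (S.pos Hρ)).2 e3), sto_none.2 ((HWin.mem_EH Hρ).2 e1),
      e2 i x₁ x₂ S hi⟩)
    rw [key]
    simp

end Pool.Agent.H64.W
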