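import Pool.Agent.H64.W.ExcH

set_option autoImplicit false

/-!
# Corners which are not touched by the line

`fix_N`, `fix_S`, `fix_W`, `fix_E` : ends of the tiles of the union above or below both lines. `fix_RS`,
`fix_RN`, `fix_RL`, `fix_RR` : all ends of the tiles of the vertical parts of the high line. `ExcF O F s`:
the exchange relation for all positions (with a string: on the same side of the string). `ExcF.hor`,
`ExcF.vertW`, .. : the increments of two positions at the corners which are above or below both lines.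
-/

namespace Pool.Agent.H64.W

open Pool.Agent.H75.Perc Pool.Agent.H75.TwoArm Pool.Agent.Q1
open Pool.Agent.H33.Q1 (lt tt lt_inj tt_lt)
open Pool.Agent.H81.G1
open Pool.Agent.H54.W Pool.Agent.H21.W.Tau Pool.Agent.H21.W.TauPos
open Pool.Agent.H64.Win (sto sto_none sto_some IsEnv State Strip End Ends Kb Yk bi bi_le nb op)
open Pool.Agent.H64.Q1 (wa)
open Pool.Agent.H74.R45 (ce inq ve he)
open Pool.Agent.H34.W (lRt rRt)

variable {D : HWin} {O : HOut D} {σ τ ρ : ℤ → ℤ} {x y i j x₁ x₂ : ℤ} {u ζ : ℂ}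

/-- tiles of the union in the box of a step -/
theorem kb_U (H : HPos D ρ) (S : HStep D ρ i x₁ x₂) (U : D.InU x y)
    (K : Kb x₁ x₂ i (nL O i x₁) (nR O i x₂) (x, y)) :
    (x₁ ≤ x ∧ x < x₂ ∧ (y = i ∨ y = i - 1)) ∨
    (x = x₁ - 1 ∧ y = i ∧ D.a x = i + 1 ∧ nL O i x₁ = false) ∨
    (x = x₂ ∧ y = i ∧ D.a x = i + 1 ∧ nR O i x₂ = false) := by
  have St := stripH O H S
  obtain ⟨u1, u2, u3, u4⟩ := U
  obtain ⟨k1, k2, k3⟩ := K
  simp only at k1 k2 k3
  have b1 := bi_le (nL O i x₁)
  have b2 := bi_le (nR O i x₂)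
  have s1 := S.x12
  by_cases c1 : x < x₁
  · right; left
    have hl := S.left (by omega)
    by_cases c2 : x = x₁ - 1
    · rw [← c2] at hl
      have ha : D.a x = i + 1 := by omega
      refine ⟨c2, by omega, ha, ?_⟩
      apply St.lc
      unfold lRt
      rw [← c2]
      exact decide_eq_true ⟨by omega, ha⟩
    · exfalso
      have hr := S.room x₁ le_rfl s1
      have hq := S.xq
      have hx : x = x₁ - 2 := by omega
      have hn := no_rise (D := D) (x := x₁ - 1) (by omega) (by omega)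
        (by rw [sub_add_cancel]; omega)
      rw [show x₁ - 1 - 1 = x by omega] at hn
      have ha : D.a (x₁ - 1) = i + 1 := by omega
      have hf : nL O i x₁ = false := by
        apply St.lc
        unfold lRt
        exact decide_eq_true ⟨by omega, ha⟩
      rw [hf] at k1
      simp only [Pool.Agent.H64.Win.bi_false] at k1
      omega
  · by_cases c3 : x < x₂
    · exact Or.inl ⟨by omega, c3, k3⟩
    · right; right
      have hl := S.right (by omega)
      by_cases c2 : x = x₂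
      · rw [← c2] at hl
        have ha : D.a x = i + 1 := by omega
        refine ⟨c2, by omega, ha, ?_⟩
        apply St.rc
        unfold rRt
        rw [← c2]
        exact decide_eq_true ⟨u2, ha⟩
      · exfalso
        have hr := S.room (x₂ - 1) (by omega) (by omega)
        have hq := S.x0
        have hx : x = x₂ + 1 := by omega
        have hn := no_drop (D := D) (x := x₂) (by omega) (by omega) (by omega)
        rw [← hx] at hn
        have ha : D.a x₂ = i + 1 := by omega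
        have hf : nR O i x₂ = false := by
          apply St.rc
          unfold rRt
          exact decide_eq_true ⟨by omega, ha⟩
        rw [hf] at k2
        simp only [Pool.Agent.H64.Win.bi_false] at k2
        omega

/-- heights of the two positions over a step -/
theorem step_hts (hb : ∀ x, D.p ≤ x → x < D.q → σ x ≤ ρ x ∧ ρ x ≤ τ x) (S : HStep D ρ i x₁ x₂)
    (hi : ∀ v, x₁ ≤ v → v < x₂ → σ v ≤ i) (h1 : x₁ ≤ x) (h2 : x < x₂) : σ x ≤ i ∧ i < τ x := by
  have e1 := S.x0
  have e2 := S.xq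
  have e3 := S.tau x h1 h2
  have e4 := hi x h1 h2
  have e5 := hb x (by omega) (by omega)
  omega

theorem fix_N (U : D.InU x y) (h : τ x ≤ y + 1 ∨ y + 2 ≤ σ x) : FixE O σ τ ((x, y), .N) := by
  intro ρ H hb
  refine ⟨Or.inl U, fun i x₁ x₂ S hi hK => ?_⟩
  obtain ⟨K1, K2⟩ := hK
  have k3 := K2.2.2
  simp only [nb] at k3
  rcases kb_U H S U K1 with ⟨h1, h2, h3⟩ | ⟨h1, h2, h3, -⟩ | ⟨h1, h2, h3, -⟩
  · have := step_hts hb S hi h1 h2
    omega
  · omega
  · omega

theorem fix_S (U : D.InU x y) (h : τ x ≤ y ∨ y + 1 ≤ σ x)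
    (hr : y + 1 = D.a x → x + 1 < D.q → D.a (x + 1) < D.a x → τ (x + 1) ≤ y ∨ y < σ (x + 1))
    (hl : y + 1 = D.a x → D.p < x → D.a (x - 1) < D.a x → τ (x - 1) ≤ y ∨ y < σ (x - 1)) :
    FixE O σ τ ((x, y), .S) := by
  intro ρ H hb
  refine ⟨Or.inl U, fun i x₁ x₂ S hi hK => ?_⟩
  obtain ⟨K1, K2⟩ := hK
  have k3 := K2.2.2
  simp only [nb] at k3
  have s1 := S.x12
  rcases kb_U H S U K1 with ⟨h1, h2, h3⟩ | ⟨h1, h2, h3, -⟩ | ⟨h1, h2, h3, -⟩
  · have := step_hts hb S hi h1 h2
    omega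
  · have e : x + 1 = x₁ := by omega
    have h4 := S.room x₁ le_rfl s1
    have h5 := step_hts hb S hi le_rfl s1
    have h6 := hr (by omega) (by have := S.xq; omega) (by rw [e]; omega)
    rw [e] at h6
    omega
  · have e : x - 1 = x₂ - 1 := by omega
    have h4 := S.room (x₂ - 1) (by omega) (by omega)
    have h5 := step_hts hb S hi (x := x₂ - 1) (by omega) (by omega)
    have h6 := hl (by omega) (by have := S.x0; omega) (by rw [e]; omega)
    rw [e] at h6
    omega

theorem fix_W (U : D.InU x y) (h : τ x ≤ y ∨ y + 2 ≤ σ x)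
    (hl : y + 1 = D.a x → D.p < x → D.a (x - 1) < D.a x → τ (x - 1) ≤ y ∨ y < σ (x - 1)) :
    FixE O σ τ ((x, y), .W) := by
  intro ρ H hb
  refine ⟨Or.inl U, fun i x₁ x₂ S hi hK => ?_⟩
  obtain ⟨K1, K2⟩ := hK
  have s1 := S.x12
  rcases kb_U H S U K1 with ⟨h1, h2, h3⟩ | ⟨h1, h2, h3, h0⟩ | ⟨h1, h2, h3, -⟩
  · have := step_hts hb S hi h1 h2
    omega
  · rw [h0] at K2
    have := K2.1
    simp only [nb, Pool.Agent.H64.Win.bi_false] at this
    omega
  · have e : x - 1 = x₂ - 1 := by omega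
    have h4 := S.room (x₂ - 1) (by omega) (by omega)
    have h5 := step_hts hb S hi (x := x₂ - 1) (by omega) (by omega)
    have h6 := hl (by omega) (by have := S.x0; omega) (by rw [e]; omega)
    rw [e] at h6
    omega

theorem fix_E (U : D.InU x y) (h : τ x ≤ y ∨ y + 2 ≤ σ x)
    (hr : y + 1 = D.a x → x + 1 < D.q → D.a (x + 1) < D.a x → τ (x + 1) ≤ y ∨ y < σ (x + 1)) :
    FixE O σ τ ((x, y), .E) := by
  intro ρ H hb
  refine ⟨Or.inl U, fun i x₁ x₂ S hi hK => ?_⟩
  obtain ⟨K1, K2⟩ := hK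
  have s1 := S.x12
  rcases kb_U H S U K1 with ⟨h1, h2, h3⟩ | ⟨h1, h2, h3, -⟩ | ⟨h1, h2, h3, h0⟩
  · have := step_hts hb S hi h1 h2
    omega
  · have e : x + 1 = x₁ := by omega
    have h4 := S.room x₁ le_rfl s1
    have h5 := step_hts hb S hi le_rfl s1
    have h6 := hr (by omega) (by have := S.xq; omega) (by rw [e]; omega)
    rw [e] at h6
    omega
  · rw [h0] at K2
    have := K2.2.1
    simp only [nb, Pool.Agent.H64.Win.bi_false] at this
    omega

/-! ### The vertical parts of the line -/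

theorem fix_RL (H : HPos D τ) (h : D.RL τ x y) (e : Dir) : FixE O σ τ ((x, y), e) := by
  intro ρ Hρ hb
  have hh := D.hh
  obtain ⟨h1, h2, h3⟩ := h
  have h4 := hb D.p le_rfl (by omega)
  refine ⟨Or.inr (Or.inr (Or.inr (Or.inl ⟨h1, by simp only; omega, h3⟩))),
    fun i x₁ x₂ S hi hK => ?_⟩
  obtain ⟨⟨k1, k2, k3⟩, -⟩ := hK
  simp only at k1 k2 k3
  have s1 := S.x12
  have b1 := bi_le (nL O i x₁)
  by_cases c : x₁ = D.p
  · have h5 := step_hts hb S hi le_rfl s1
    rw [c] at h5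
    omega
  · have s0 := S.x0
    have s2 := S.xq
    have h5 := S.left (by omega)
    have h6 := S.room x₁ le_rfl s1
    have := D.fe x₁ (by omega) (by omega) (by omega)
    omega

theorem fix_RR (H : HPos D τ) (h : D.RR τ x y) (e : Dir) : FixE O σ τ ((x, y), e) := by
  intro ρ Hρ hb
  have hh := D.hh
  obtain ⟨h1, h2, h3⟩ := h
  have h4 := hb (D.q - 1) (by omega) (by omega)
  refine ⟨Or.inr (Or.inr (Or.inr (Or.inr ⟨h1, by simp only; omega, h3⟩))),
    fun i x₁ x₂ S hi hK => ?_⟩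
  obtain ⟨⟨k1, k2, k3⟩, -⟩ := hK
  simp only at k1 k2 k3
  have s1 := S.x12
  have b1 := bi_le (nR O i x₂)
  by_cases c : x₂ = D.q
  · have h5 := step_hts hb S hi (x := x₂ - 1) (by omega) (by omega)
    rw [c] at h5
    omega
  · have s0 := S.x0
    have s2 := S.xq
    have h5 := S.right (by omega)
    have h6 := S.room (x₂ - 1) (by omega) (by omega)
    have := D.fe x₂ (by omega) (by omega) (by omega)
    omega

theorem fix_RS (H : HPos D τ) (h : D.RS τ x y) (e : Dir) : FixE O σ τ ((x, y), e) := by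
  intro ρ Hρ hb
  have hp := h.pos H
  obtain ⟨h1, h2, h3, h4⟩ := h
  have h5 := hb (x + 1) (by omega) h2
  have h6 := Hρ.lo x h1 (by omega)
  refine ⟨Or.inr (Or.inl ⟨h1, h2, by simp only; omega, by simp only; omega⟩),
    fun i x₁ x₂ S hi hK => ?_⟩
  obtain ⟨⟨k1, k2, k3⟩, -⟩ := hK
  simp only at k1 k2 k3
  have s0 := S.x0
  have s1 := S.x12
  have s2 := S.xq
  have b1 := bi_le (nL O i x₁)
  have b2 := bi_le (nR O i x₂)
  have lo1 := H.lo (x + 1) (by omega) h2
  by_cases c1 : x₁ ≤ x ∧ x < x₂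
  · have := S.room x c1.1 c1.2
    omega
  by_cases c2 : x < x₁
  · by_cases c3 : x₁ = x + 1
    · have h7 := step_hts hb S hi le_rfl s1
      rw [c3] at h7
      omega
    · have c4 : x₁ = x + 2 := by omega
      have h7 := S.left (by omega)
      rw [show x₁ - 1 = x + 1 by omega] at h7
      omega
  · -- a rise shortly before a drop
    have h7 := S.right (by omega)
    have h8 := S.room (x₂ - 1) (by omega) (by omega)
    have := D.ud x₂ (x + 1) (by omega) (by omega) h2 (by omega)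
      (by rw [add_sub_cancel_right]; exact hp.2)
    omega

theorem fix_RN (H : HPos D τ) (h : D.RN τ x y) (e : Dir) : FixE O σ τ ((x, y), e) := by
  intro ρ Hρ hb
  have hp := h.pos H
  obtain ⟨h1, h2, h3, h4⟩ := h
  have h5 := hb (x - 1) (by omega) (by omega)
  have h6 := Hρ.lo x (by omega) h2
  refine ⟨Or.inr (Or.inr (Or.inl ⟨h1, h2, by simp only; omega, by simp only; omega⟩)),
    fun i x₁ x₂ S hi hK => ?_⟩
  obtain ⟨⟨k1, k2, k3⟩, -⟩ := hK
  simp only at k1 k2 k3
  have s0 := S.x0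
  have s1 := S.x12
  have s2 := S.xq
  have b1 := bi_le (nL O i x₁)
  have b2 := bi_le (nR O i x₂)
  have lo1 := H.lo (x - 1) (by omega) (by omega)
  by_cases c1 : x₁ ≤ x ∧ x < x₂
  · have := S.room x c1.1 c1.2
    omega
  by_cases c2 : x < x₁
  · -- a rise shortly before a drop
    have h7 := S.left (by omega)
    have h8 := S.room x₁ le_rfl s1
    have := D.ud x x₁ (by omega) (by omega) (by omega) hp.2 (by omega)
    omega
  · by_cases c3 : x₂ = x
    · have h7 := step_hts hb S hi (x := x₂ - 1) (by omega) (by omega)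
      rw [c3] at h7
      omega
    · have c4 : x₂ = x - 1 := by omega
      have h7 := S.right (by omega)
      rw [c4] at h7
      omega

/-! ### Two positions -/

theorem hpos_max (H : HPos D τ) (H' : HPos D σ) : HPos D (fun x => max (σ x) (τ x)) :=
  hpos_iff.2 ((hpos_iff.1 H').max (hpos_iff.1 H))

/-- **The exchange relation** for all pairs of positions with `R` -/
structure ExcF (O : HOut D) (F : (ℤ → ℤ) → ℤ × ℤ → ℂ) (R : (ℤ → ℤ) → Prop) : Prop where
  max : ∀ σ τ : ℤ → ℤ, R σ → R τ → R (fun x => max (σ x) (τ x))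
  step : ∀ σ τ : ℤ → ℤ, (∀ x, D.p ≤ x → x < D.q → σ x ≤ τ x) → R σ → R τ → StepF O F σ τ

/-- natural weights -/
theorem excFN (O : HOut D) (hu : Complex.sin (2 * u) ≠ 0) :
    ExcF O (FN O u) (fun _ => True) where
  max _ _ _ _ := trivial
  step σ τ _ _ _ := stepFN O hu σ τ

/-- the line is below the string -/
theorem excFS (O : HOut D) (hu : Complex.sin (2 * u) ≠ 0) (hζ : Pool.Agent.H11.W.Fz ζ) {x0 s : ℤ}
    (hp : D.p ≤ x0) (hq : x0 < D.q) (hs : D.a x0 ≤ s) :
    ExcF O (FS O u ζ x0 s) (fun τ => τ x0 ≤ s) where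
  max σ τ h1 h2 := max_le h1 h2
  step σ τ _ _ h := stepFS O hu hζ hp hq hs (Or.inl h)

/-- the line crosses the string -/
theorem excFS' (O : HOut D) (hu : Complex.sin (2 * u) ≠ 0) (hζ : Pool.Agent.H11.W.Fz ζ) {x0 s : ℤ}
    (hp : D.p ≤ x0) (hq : x0 < D.q) (hs : D.a x0 ≤ s) :
    ExcF O (FS O u ζ x0 s) (fun τ => s < τ x0) where
  max σ τ h1 h2 := lt_max_of_lt_left h1
  step σ τ _ h _ := stepFS O hu hζ hp hq hs (Or.inr h)

section two

variable {F : (ℤ → ℤ) → ℤ × ℤ → ℂ} {R : (ℤ → ℤ) → Prop}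

/-- **Two positions**, an end which is not touched. -/
theorem ExcF.two (hF : ExcF O F R) (H : HPos D τ) (H' : HPos D σ) (r : R τ) (r' : R σ) {z : End}
    (h1 : FixE O σ (fun x => Max.max (σ x) (τ x)) z)
    (h2 : FixE O τ (fun x => Max.max (σ x) (τ x)) z) :
    F σ (ce z.1 z.2) = F τ (ce z.1 z.2) := by
  have hm := hpos_max H H'
  have rm := hF.max σ τ r' r
  rw [(hF.step σ _ (fun x _ _ => le_max_left _ _) r' rm).fix hm H' (fun x _ _ => le_max_left _ _) h1,
    (hF.step τ _ (fun x _ _ => le_max_right _ _) r rm).fix hm H (fun x _ _ => le_max_right _ _) h2]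

/-- **Horizontal edges** above or below both lines -/
theorem ExcF.hor (hF : ExcF O F R) (H : HPos D τ) (H' : HPos D σ) (r : R τ) (r' : R σ)
    (x1 : D.p ≤ x) (x2 : x < D.q) (y1 : D.a x ≤ y) (y2 : y ≤ D.w)
    (h : (τ x ≤ y ∧ σ x ≤ y) ∨ (y < τ x ∧ y < σ x)) : F σ (he (x, y)) = F τ (he (x, y)) := by
  have U : D.InU x (y - 1) := ⟨x1, x2, by omega, by omega⟩
  have e : he (x, y) = ce (x, y - 1) .N := by
    change _ = he (x, y - 1 + 1)
    rw [sub_add_cancel]
  rw [e]
  refine hF.two H H' r r' (z := ((x, y - 1), .N)) (fix_N U ?_) (fix_N U ?_) <;>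
  · simp only [max_le_iff]
    omega

/-- **Vertical edges**, left edge of a tile above or below both lines -/
theorem ExcF.vertW (hF : ExcF O F R) (H : HPos D τ) (H' : HPos D σ) (r : R τ) (r' : R σ)
    (x1 : D.p ≤ x) (x2 : x < D.q) (y1 : D.a x ≤ y) (y2 : y < D.w)
    (h : (τ x ≤ y ∧ σ x ≤ y) ∨ (y + 2 ≤ τ x ∧ y + 2 ≤ σ x)) : F σ (ve (x, y)) = F τ (ve (x, y)) := by
  have U : D.InU x y := ⟨x1, x2, by omega, by omega⟩
  refine hF.two H H' r r' (z := ((x, y), .W)) (fix_W U ?_ (by omega)) (fix_W U ?_ (by omega)) <;>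
  · simp only [max_le_iff]
    omega

/-- **Vertical edges**, right edge of a tile above or below both lines -/
theorem ExcF.vertE (hF : ExcF O F R) (H : HPos D τ) (H' : HPos D σ) (r : R τ) (r' : R σ)
    (x1 : D.p ≤ x) (x2 : x < D.q) (y1 : D.a x ≤ y) (y2 : y < D.w)
    (h : (τ x ≤ y ∧ σ x ≤ y) ∨ (y + 2 ≤ τ x ∧ y + 2 ≤ σ x)) :
    F σ (ve (x + 1, y)) = F τ (ve (x + 1, y)) := by
  have U : D.InU x y := ⟨x1, x2, by omega, by omega⟩
  refine hF.two H H' r r' (z := ((x, y), .E)) (fix_E U ?_ (by omega)) (fix_E U ?_ (by omega)) <;>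
  · simp only [max_le_iff]
    omega

/-- **The edges of the floor**, away from the columns next to a wall -/
theorem ExcF.floor (hF : ExcF O F R) (H : HPos D τ) (H' : HPos D σ) (r : R τ) (r' : R σ)
    (x1 : D.p ≤ x) (x2 : x < D.q) (hl : D.p < x → D.a x ≤ D.a (x - 1))
    (hr : x + 1 < D.q → D.a x ≤ D.a (x + 1)) :
    F σ (he (x, D.a x - 1)) = F τ (he (x, D.a x - 1)) := by
  have aw := D.aw x x1 x2
  have l1 := H.lo x x1 x2
  have l2 := H'.lo x x1 x2
  have U : D.InU x (D.a x - 1) := ⟨x1, x2, by omega, by omega⟩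
  refine hF.two H H' r r' (z := ((x, D.a x - 1), .S))
    (fix_S U ?_ (fun _ h1 h2 => ?_) (fun _ h1 h2 => ?_))
    (fix_S U ?_ (fun _ h1 h2 => ?_) (fun _ h1 h2 => ?_))
  · omega
  · have := hr h1; omega
  · have := hl h1; omega
  · omega
  · have := hr h1; omega
  · have := hl h1; omega

end two

end Pool.Agent.H64.W
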