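import Pool.Agent.H64.Win.Strip

set_option autoImplicit false

/-!
# Comparison of two environments which differ in a strip, wires inside the box

`PaK K σ z w t` : a part of a wire which crosses only edges inside the box `K`. `LocK` : the comparison of
two states outside a box, corresponding ends are joined to the boundary of the box by wires inside the box.
`PaK.exit` : the wire from the boundary to a random end inside the box does not meet the edges which are
not inside the box. `LocK.path` : the parts of wires between two edges which are not inside the box are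
the same.
-/

namespace Pool.Agent.H64.W

open Pool.Agent.H64.Q1 hiding Tl
open Pool.Agent.H81.G1 Pool.Agent.Q1 Pool.Agent.H33.Q1
open Pool.Agent.H75.Perc hiding ep
open Pool.Agent.H75.TwoArm
open Pool.Agent.H74.R45 hiding Tl
open Pool.Agent.H64.Win

/-- the other side of an edge -/
def rv (z : End) : End := (nb z.1 z.2, op z.2)

@[simp] theorem rv_rv (z : End) : rv (rv z) = z := by
  unfold rv
  simp only [nb_nb, op_op]

theorem Yk.rv {K : ℤ × ℤ → Prop} {z : End} (h : Yk K z) : Yk K (rv z) := h.rev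

theorem Yk.of_rv {K : ℤ × ℤ → Prop} {z : End} (h : Yk K (W.rv z)) : Yk K z := by
  have := Yk.rv h
  rwa [rv_rv] at this

/-- a part of a wire inside the box -/
inductive PaK (K : ℤ × ℤ → Prop) (σ : State) : End → End → ℤ → Prop
  | nil (z : End) : PaK K σ z z 0
  | cons {z w : End} {b : Bool} {t : ℤ} (hK : K z.1 ∧ K (nb z.1 z.2)) (h : σ (nb z.1 z.2) = some b)
      (H : PaK K σ (nb z.1 z.2, (op z.2).mate b) w t) : PaK K σ z w ((op z.2).tn b + t)

variable {K : ℤ × ℤ → Prop} {σ σ' : State}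

theorem PaK.pa {z w : End} {t : ℤ} (h : PaK K σ z w t) : Pa σ z w t := by
  induction h with
  | nil z => exact Pa.nil _
  | cons hK h H ih => exact Pa.cons h ih

theorem PaK.cons' {z w : End} {c : ℤ × ℤ} {d : Dir} {b : Bool} {t t' : ℤ} (hK : K z.1 ∧ K c)
    (h : σ c = some b) (h1 : nb z.1 z.2 = c) (h2 : (op z.2).mate b = d) (H : PaK K σ (c, d) w t)
    (ht : t' = (op z.2).tn b + t) : PaK K σ z w t' := by
  subst ht h2 h1
  exact PaK.cons hK h H

/-- a part of a wire with at least one tile -/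
def P1 (σ : State) (z y : End) : Prop :=
  ∃ b t, σ (nb z.1 z.2) = some b ∧ Pa σ (nb z.1 z.2, (op z.2).mate b) y t

theorem P1.of {z y : End} {t : ℤ} (h : Pa σ z y t) : (z = y ∧ t = 0) ∨ P1 σ z y := by
  cases h with
  | nil => exact Or.inl ⟨rfl, rfl⟩
  | cons h H => exact Or.inr ⟨_, _, h, H⟩

/-- **The wires which enter the box.** -/
theorem PaK.exit {w v : End} {τ : ℤ} (h : PaK K σ w v τ) : ∀ {y : End}, P1 σ (rv v) y →
    ¬ Yk K y ∨ P1 σ (rv w) y := by
  induction h with
  | nil w => intro y hy; exact Or.inr hy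
  | @cons w v b τ hK h1 H ih =>
    intro y hy
    rcases ih hy with h2 | ⟨b', t, h3, H3⟩
    · exact Or.inl h2
    · unfold rv at h3 H3
      simp only [nb_nb, op_op] at h3 H3
      rw [h1, Option.some.injEq] at h3
      rw [← h3, mate_mate] at H3
      rcases P1.of H3 with ⟨h4, -⟩ | h4
      · left
        intro hy'
        rw [← h4] at hy'
        exact Yk.of_rv (z := w) hy' hK
      · exact Or.inr h4

/-- the wire from the boundary to a random end inside the box -/
theorem PaK.exit' {w v : End} {τ : ℤ} (h : PaK K σ w v τ) (hw : σ w.1 = none) {y : End}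
    (hy : P1 σ (rv v) y) : ¬ Yk K y := by
  rcases h.exit hy with h1 | ⟨b, t, h3, -⟩
  · exact h1
  · exfalso
    unfold rv at h3
    simp only [nb_nb] at h3
    rw [hw] at h3
    exact absurd h3 (by simp)

/-- corresponding ends leave the box through `y`, inside the box -/
def GateK (K : ℤ × ℤ → Prop) (σ σ' : State) (En : End → End → ℤ → Prop) (y : End) : Prop :=
  ∃ w w' δ τ, En w w' δ ∧ PaK K σ w y τ ∧ PaK K σ' w' y (τ + δ)

/-- the comparison of two states outside a box -/
structure LocK (σ σ' : State) (K : ℤ × ℤ → Prop) (En : End → End → ℤ → Prop) : Prop where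
  rnd : ∀ w w' δ, En w w' δ → σ w.1 = none ∧ σ' w'.1 = none
  step : ∀ c e, Yk K (c, e) → (∃ b, σ c = some b ∧ σ' c = some b ∧ Yk K (c, e.mate b)) ∨
    GateK K σ σ' En (c, e)

variable {En : End → End → ℤ → Prop}

theorem LocK.symm (L : LocK σ σ' K En) : LocK σ' σ K (fun w w' δ => En w' w (-δ)) where
  rnd := fun w w' δ h => (L.rnd _ _ _ h).symm
  step := by
    intro c e h
    rcases L.step c e h with ⟨b, h1, h2, h3⟩ | ⟨w, w', δ, τ, h1, h2, h3⟩
    · exact Or.inl ⟨b, h2, h1, h3⟩
    · refine Or.inr ⟨w', w, -δ, τ + δ, by change En w w' (- -δ); rw [neg_neg]; exact h1, h3, ?_⟩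
      rw [add_neg_cancel_right]
      exact h2

/-- one step of a wire outside the box which continues to an edge which is not inside the box -/
theorem LocK.one (L : LocK σ σ' K En) {z y : End} {b : Bool} {t : ℤ} (hz : Yk K z) (hy : Yk K y)
    (h : σ (nb z.1 z.2) = some b) (H : Pa σ (nb z.1 z.2, (op z.2).mate b) y t) :
    σ' (nb z.1 z.2) = some b ∧ Yk K (nb z.1 z.2, (op z.2).mate b) := by
  rcases L.step _ _ hz.rev with ⟨b', h2, h3, h4⟩ | ⟨w, w', δ, τ, h2, h3, h4⟩
  · rw [h, Option.some.injEq] at h2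
    subst h2
    exact ⟨h3, h4⟩
  · exfalso
    obtain ⟨r1, r2⟩ := L.rnd _ _ _ h2
    have e1 : rv (nb z.1 z.2, op z.2) = z := rv_rv z
    exact h3.exit' r1 (by rw [e1]; exact ⟨b, t, h, H⟩) hy

/-- **The parts of wires between two edges which are not inside the box are the same.** -/
theorem LocK.path (L : LocK σ σ' K En) {z y : End} {t : ℤ} (h : Pa σ z y t) :
    Yk K z → Yk K y → Pa σ' z y t := by
  induction h with
  | nil => intro _ _; exact Pa.nil _
  | @cons z y b t h H ih =>
    intro hz hy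
    obtain ⟨h1, h2⟩ := L.one hz hy h H
    exact Pa.cons h1 (ih h2 hy)

/-- **A wire outside the box.** -/
theorem LocK.main (L : LocK σ σ' K En) {y w : End} {t : ℤ} (h : G σ y w t) (hy : Yk K y) :
    ∃ w' δ, En w w' δ ∧ G σ' y w' (t - δ) := by
  induction h with
  | @stop y h1 =>
    rcases L.step _ _ hy.rev with ⟨b, h2, -⟩ | ⟨w, w', δ, τ, h2, h3, h4⟩
    · rw [h1] at h2; exact absurd h2 (by simp)
    · obtain ⟨r1, r2⟩ := L.rnd _ _ _ h2
      have g1 := h3.pa.symm r1
      have g2 := h4.pa.symm r2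
      simp only [nb_nb, op_op] at g1 g2
      have g0 : G σ y (nb y.1 y.2, op y.2) 0 := G.stop h1
      obtain ⟨e1, e2⟩ := g0.det g1
      refine ⟨w', δ, e1 ▸ h2, ?_⟩
      convert g2 using 1
      omega
  | @pass y w b t h1 H ih =>
    rcases L.step _ _ hy.rev with ⟨b', h2, h3, h4⟩ | ⟨w0, w', δ, τ, h2, h3, h4⟩
    · rw [h1] at h2
      simp only [Option.some.injEq] at h2
      subst h2
      obtain ⟨w', δ, h5, h6⟩ := ih h4
      refine ⟨w', δ, h5, ?_⟩
      exact G.pass' h3 rfl rfl h6 (by ring)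
    · obtain ⟨r1, r2⟩ := L.rnd _ _ _ h2
      have g1 := h3.pa.symm r1
      have g2 := h4.pa.symm r2
      simp only [nb_nb, op_op] at g1 g2
      have g0 : G σ y w ((op y.2).tn b + t) := G.pass h1 H
      obtain ⟨e1, e2⟩ := g0.det g1
      refine ⟨w', δ, e1 ▸ h2, ?_⟩
      convert g2 using 1
      omega

/-! ### The zones -/

section zone

variable {σ1 σ2 : State} {U V A B U2 V2 : ℤ × ℤ} {n i : Dir} {ch : Bool}

/-- the line end -/
theorem lineK (Z : ZS ch σ1 σ2 U V A B U2 V2 n i) (kA : K A) (kU : K U) :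
    PaK K σ2 (A, op i) (U, n) (-(ep n i)) := by
  obtain ⟨hn, hi, eV, eA, eB, eU, eV2, rU, sU, sV, rA, rB, nc, yc⟩ := Z
  refine PaK.cons' (c := U) (t := 0) ⟨kA, kU⟩ sU ?_ ?_ (PaK.nil _) ?_
  · rw [eA]; exact nb_nb _ _
  · simp only [op_op]
    revert hn hi
    cases n <;> cases i <;> simp [Dir.v, nu, Dir.mate]
  · simp only [op_op]
    revert hn hi
    unfold ep nu
    cases n <;> cases i <;> simp [Dir.v, Dir.mate, Dir.tn]

/-- the end of the region, unchanged -/
theorem reg_ncK (Z : ZS false σ1 σ2 U V A B U2 V2 n i) (kB : K B) (kV : K V) (kU : K U) :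
    PaK K σ2 (B, op i) (U, op i) 0 := by
  obtain ⟨hn, hi, eV, eA, eB, eU, eV2, rU, sU, sV, rA, rB, nc, yc⟩ := Z
  refine PaK.cons' (c := V) (d := n) (t := ep n i) ⟨kB, kV⟩ (nc rfl) ?_ ?_
    (PaK.cons' (c := U) (t := 0) ⟨kV, kU⟩ sU ?_ ?_ (PaK.nil _) ?_) ?_
  · rw [eB]; exact nb_nb _ _
  · simp only [op_op]
    revert hn hi
    cases n <;> cases i <;> simp [Dir.v, nu, Dir.mate]
  · simp only
    rw [eV]
    have := nb_nb U (op n)
    rwa [op_op] at this
  · simp only
    revert hn hi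
    cases n <;> cases i <;> simp [Dir.v, nu, Dir.mate, op]
  · simp only
    revert hn hi
    unfold ep nu
    cases n <;> cases i <;> simp [Dir.v, Dir.mate, Dir.tn, op]
  · simp only [op_op]
    revert hn hi
    unfold ep nu
    cases n <;> cases i <;> simp [Dir.v, Dir.mate, Dir.tn]

/-- the end of the region, changed -/
theorem reg_ycK (Z : ZS true σ1 σ2 U V A B U2 V2 n i) (kB : K B) (kV : K V) (kU : K U) (kU2 : K U2)
    (kV2 : K V2) :
    PaK K σ1 (U, op i) (V, op n) (ep n i) ∧ PaK K σ2 (B, op i) (V, op n) (ep n i) := by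
  obtain ⟨hn, hi, eV, eA, eB, eU, eV2, rU, sU, sV, rA, rB, nc, yc⟩ := Z
  obtain ⟨y1, y2, y3, y4, y5⟩ := yc rfl
  constructor
  · refine PaK.cons' (c := U2) (d := op n) (t := 0) ⟨kU, kU2⟩ y2 eU.symm ?_
      (PaK.cons' (c := V2) (d := i) (t := -(ep n i)) ⟨kU2, kV2⟩ y4 ?_ ?_
      (PaK.cons' (c := V) (t := 0) ⟨kV2, kV⟩ sV ?_ ?_ (PaK.nil _) ?_) ?_) ?_
    · simp only [op_op]
      revert hn hi
      cases n <;> cases i <;> simp [Dir.v, nu, Dir.mate, op]
    · simp only
      rw [eU, eV2, eV]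
      obtain ⟨x, y⟩ := U
      revert hn hi
      cases n <;> cases i <;> simp [Dir.v, op, nb]
    · simp only [op_op]
      revert hn hi
      cases n <;> cases i <;> simp [Dir.v, nu, Dir.mate]
    · simp only
      rw [eV2]
      have := nb_nb V (op i)
      rwa [op_op] at this
    · simp only
      revert hn hi
      cases n <;> cases i <;> simp [Dir.v, nu, Dir.mate, op]
    · simp only
      revert hn hi
      unfold ep nu
      cases n <;> cases i <;> simp [Dir.v, Dir.mate, Dir.tn, op]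
    · simp only [op_op]
      revert hn hi
      unfold ep nu
      cases n <;> cases i <;> simp [Dir.v, Dir.mate, Dir.tn]
    · simp only [op_op]
      revert hn hi
      unfold ep nu
      cases n <;> cases i <;> simp [Dir.v, Dir.mate, Dir.tn]
  · refine PaK.cons' (c := V) (t := 0) ⟨kB, kV⟩ y1 ?_ ?_ (PaK.nil _) ?_
    · rw [eB]; exact nb_nb _ _
    · simp only [op_op]
      revert hn hi
      cases n <;> cases i <;> simp [Dir.v, nu, Dir.mate, op]
    · simp only [op_op]
      revert hn hi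
      unfold ep nu
      cases n <;> cases i <;> simp [Dir.v, Dir.mate, Dir.tn]

end zone

/-! ### The strip, both columns of the first state -/

section strip

variable {a b j : ℤ} {lR cL rR cR : Bool}

theorem gate_regK {lS rN : Bool} {w : End} (h1 : σ w.1 = none) (h2 : σ' w.1 = none)
    (h3 : Yk (Kb a b j cL cR) w) :
    GateK (Kb a b j cL cR) σ σ' (Ends σ σ' a b j lS lR cL rN rR cR) w :=
  ⟨w, w, 0, 0, Or.inl ⟨rfl, rfl, h1, h2, h3⟩, PaK.nil _, PaK.nil _⟩

theorem kb_mem {x y : ℤ} (h1 : a - 1 - bi cL ≤ x) (h2 : x ≤ b + bi cR) (h3 : y = j ∨ y = j - 1) :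
    Kb a b j cL cR (x, y) := ⟨h1, h2, h3⟩

/-- the left end -/
theorem stripKL (S : Strip σ σ' a b j true lR cL true rR cR) (c : ℤ × ℤ) (e : Dir)
    (h1 : Kb a b j cL cR c) (h2 : c.1 < a) (h3 : ¬ Kb a b j cL cR (nb c e)) :
    (∃ β, σ c = some β ∧ σ' c = some β ∧ Yk (Kb a b j cL cR) (c, e.mate β)) ∨
      GateK (Kb a b j cL cR) σ σ' (Ends σ σ' a b j true lR cL true rR cR) (c, e) := by
  have hab := S.ab
  have bL := bi_le cL
  have bR := bi_le cR
  rcases Bool.eq_false_or_eq_true lR with hR | hR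
  · subst hR
    have hc := S.lc rfl
    subst hc
    have Z := S.l3 rfl rfl
    rcases Z.entry (brL h1 h2 h3 hab).1 with ⟨β, h4, h5, h6⟩ | h4 | h4
    · exact Or.inl ⟨β, h4, h5, brL' hab (Or.inl h6)⟩
    · rw [h4]
      exact Or.inr (gate_regK Z.rU.1 Z.rU.2 (brL' hab (Or.inl (Or.inl rfl))))
    · rw [h4]
      exact Or.inr (gate_regK Z.rU.1 Z.rU.2 (brL' hab (Or.inl (Or.inr (Or.inl rfl)))))
  · subst hR
    have Z := S.l1 rfl rfl
    have kU : Kb a b j cL cR (a - 1, j) := kb_mem (by omega) (by omega) (Or.inl rfl)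
    have kV : Kb a b j cL cR (a - 1, j - 1) := kb_mem (by omega) (by omega) (Or.inr rfl)
    have kA : Kb a b j cL cR (a, j) := kb_mem (by omega) (by omega) (Or.inl rfl)
    have kB : Kb a b j cL cR (a, j - 1) := kb_mem (by omega) (by omega) (Or.inr rfl)
    rcases Z.entry (bdL h1 h2 h3 hab).1 with ⟨β, h4, h5, h6⟩ | h4 | ⟨h0, h4⟩ | ⟨h0, h4⟩
    · exact Or.inl ⟨β, h4, h5, bdL' hab (Or.inl h6)⟩
    · rw [h4]
      exact Or.inr ⟨((a - 1, j), .N), ((a, j), .W), -1, 0,
        Or.inr (Or.inl ⟨rfl, Or.inl ⟨rfl, rfl, rfl⟩⟩), PaK.nil _, lineK Z kA kU⟩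
    · rw [h4]
      subst h0
      exact Or.inr ⟨((a - 1, j), .W), ((a, j - 1), .W), 0, 0,
        Or.inr (Or.inl ⟨rfl, Or.inr ⟨rfl, rfl, rfl⟩⟩), PaK.nil _, reg_ncK Z kB kV kU⟩
    · rw [h4]
      subst h0
      have kU2 : Kb a b j true cR (a - 2, j) :=
        kb_mem (by simp only [bi_true]; omega) (by omega) (Or.inl rfl)
      have kV2 : Kb a b j true cR (a - 2, j - 1) :=
        kb_mem (by simp only [bi_true]; omega) (by omega) (Or.inr rfl)
      obtain ⟨g1, g2⟩ := reg_ycK Z kB kV kU kU2 kV2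
      exact Or.inr ⟨((a - 1, j), .W), ((a, j - 1), .W), 0, _,
        Or.inr (Or.inl ⟨rfl, Or.inr ⟨rfl, rfl, rfl⟩⟩), g1, by rw [add_zero]; exact g2⟩

/-- the right end -/
theorem stripKR (S : Strip σ σ' a b j true lR cL true rR cR) (c : ℤ × ℤ) (e : Dir)
    (h1 : Kb a b j cL cR c) (h2 : b ≤ c.1) (h3 : ¬ Kb a b j cL cR (nb c e)) :
    (∃ β, σ c = some β ∧ σ' c = some β ∧ Yk (Kb a b j cL cR) (c, e.mate β)) ∨
      GateK (Kb a b j cL cR) σ σ' (Ends σ σ' a b j true lR cL true rR cR) (c, e) := by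
  have hab := S.ab
  have bL := bi_le cL
  have bR := bi_le cR
  rcases Bool.eq_false_or_eq_true rR with hR | hR
  · subst hR
    have hc := S.rc rfl
    subst hc
    have Z := S.r3 rfl rfl
    rcases Z.entry (brR h1 h2 h3 hab).1 with ⟨β, h4, h5, h6⟩ | h4 | h4
    · exact Or.inl ⟨β, h4, h5, brR' hab (Or.inl h6)⟩
    · rw [h4]
      exact Or.inr (gate_regK Z.rU.1 Z.rU.2 (brR' hab (Or.inl (Or.inl rfl))))
    · rw [h4]
      exact Or.inr (gate_regK Z.rU.1 Z.rU.2 (brR' hab (Or.inl (Or.inr (Or.inl rfl)))))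
  · subst hR
    have Z := S.r1 rfl rfl
    have kU : Kb a b j cL cR (b, j) := kb_mem (by omega) (by omega) (Or.inl rfl)
    have kV : Kb a b j cL cR (b, j - 1) := kb_mem (by omega) (by omega) (Or.inr rfl)
    have kA : Kb a b j cL cR (b - 1, j) := kb_mem (by omega) (by omega) (Or.inl rfl)
    have kB : Kb a b j cL cR (b - 1, j - 1) := kb_mem (by omega) (by omega) (Or.inr rfl)
    rcases Z.entry (bdR h1 h2 h3 hab).1 with ⟨β, h4, h5, h6⟩ | h4 | ⟨h0, h4⟩ | ⟨h0, h4⟩
    · exact Or.inl ⟨β, h4, h5, bdR' hab (Or.inl h6)⟩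
    · rw [h4]
      exact Or.inr ⟨((b, j), .N), ((b - 1, j), .E), 1, 0,
        Or.inr (Or.inr ⟨rfl, Or.inl ⟨rfl, rfl, rfl⟩⟩), PaK.nil _, lineK Z kA kU⟩
    · rw [h4]
      subst h0
      exact Or.inr ⟨((b, j), .E), ((b - 1, j - 1), .E), 0, 0,
        Or.inr (Or.inr ⟨rfl, Or.inr ⟨rfl, rfl, rfl⟩⟩), PaK.nil _, reg_ncK Z kB kV kU⟩
    · rw [h4]
      subst h0
      have kU2 : Kb a b j cL true (b + 1, j) :=
        kb_mem (by omega) (by simp only [bi_true]; omega) (Or.inl rfl)
      have kV2 : Kb a b j cL true (b + 1, j - 1) :=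
        kb_mem (by omega) (by simp only [bi_true]; omega) (Or.inr rfl)
      obtain ⟨g1, g2⟩ := reg_ycK Z kB kV kU kU2 kV2
      exact Or.inr ⟨((b, j), .E), ((b - 1, j - 1), .E), 0, _,
        Or.inr (Or.inr ⟨rfl, Or.inr ⟨rfl, rfl, rfl⟩⟩), g1, by rw [add_zero]; exact g2⟩

/-- **The two environments of a strip outside the box.** -/
theorem strip_locK (S : Strip σ σ' a b j true lR cL true rR cR) :
    LocK σ σ' (Kb a b j cL cR) (Ends σ σ' a b j true lR cL true rR cR) where
  rnd := S.loc.rnd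
  step := by
    intro c e hY
    have hab := S.ab
    by_cases hK : Kb a b j cL cR c
    · have hn : ¬ Kb a b j cL cR (nb c e) := fun h => hY ⟨hK, h⟩
      by_cases h1 : c.1 < a
      · exact stripKL S c e hK h1 hn
      · by_cases h2 : b ≤ c.1
        · exact stripKR S c e hK h2 hn
        · obtain ⟨x, y⟩ := c
          simp only at h1 h2
          obtain ⟨⟨k1, k2⟩, k3, k4⟩ := S.row x (by omega) (by omega)
          obtain ⟨-, -, h3⟩ := hK
          simp only at h3
          rcases h3 with rfl | rfl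
          · exact Or.inr (gate_regK k1 k2 hY)
          · exact Or.inr (gate_regK k3 k4 hY)
    · have h1 := bi_le cL
      have h2 := bi_le cR
      have hout : σ c = σ' c := by
        apply S.out c
        · rintro rfl; exact hK ⟨by simp only; omega, by simp only; omega, Or.inl rfl⟩
        · rintro rfl; exact hK ⟨by simp only; omega, by simp only; omega, Or.inr rfl⟩
        · rintro rfl; exact hK ⟨by simp only; omega, by simp only; omega, Or.inl rfl⟩
        · rintro rfl; exact hK ⟨by simp only; omega, by simp only; omega, Or.inr rfl⟩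
      cases h : σ c with
      | none =>
        exact Or.inr (gate_regK h (hout ▸ h) hY)
      | some β =>
        exact Or.inl ⟨β, rfl, by rw [← hout, h], fun h' => hK h'.1⟩

end strip

end Pool.Agent.H64.W
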