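import Pool.Agent.H64.Win.Strip

/-!
# Windows over a floor of any shape: the line on a lattice path

`Prof` : the column `x` of the window is `A x ≤ y < H`; `A x = H + 1` in the walls `x < p` and `q ≤ x`;
`ν q` is the natural state of the tile `q`. The line goes above the floor at the height `g x ≥ A x` of the
column `x` (below the cell `(x, g x)`), down and up along the vertical sides of the floor. The cells above
the line do not move, the cells below the line are shifted by `(0,-1)`, the line is in the row `g x - 1` of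
the column `x`. `σg g` : the states (`none` : random). `Rise` : the line goes up by one row between two
vertical sides.
-/

namespace Pool.Agent.H64.W

open Pool.Agent.H64.Q1 hiding Tl
open Pool.Agent.H81.G1 Pool.Agent.Q1 Pool.Agent.H33.Q1
open Pool.Agent.H75.Perc Pool.Agent.H75.TwoArm
open Pool.Agent.H74.R45 hiding Tl
open Pool.Agent.H64.Win (State Strip ZS ZR nu nb op)

/-- **A window over a floor** -/
structure Prof where
  p : ℤ
  q : ℤ
  H : ℤ
  A : ℤ → ℤ
  ν : ℤ × ℤ → Bool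
  hw : ∀ x, (x < p ∨ q ≤ x) → A x = H + 1
  tR : ∀ x, A (x + 1) < A x → A x ≤ A (x - 1) ∧ A x ≤ A (x - 2)
  tL : ∀ x, A (x - 1) < A x → A x ≤ A (x + 1) ∧ A x ≤ A (x + 2)
  tV : ∀ x, A x < A (x - 1) → A (x + 1) ≤ A x
  pR : ∀ x, p ≤ x → x < q → A (x + 1) < A x → ν (x, A x - 2) = true
  pL : ∀ x, p ≤ x → x < q → A (x - 1) < A x → ν (x, A x - 2) = false
  fR : ∀ x y, A (x + 1) < A x → A (x + 1) ≤ y + 1 → y + 3 ≤ A x → ν (x, y) = false →
    ν (x - 1, y + 1) = false ∧ ν (x - 1, y) = true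
  fL : ∀ x y, A (x - 1) < A x → A (x - 1) ≤ y + 1 → y + 3 ≤ A x → ν (x, y) = true →
    ν (x + 1, y + 1) = true ∧ ν (x + 1, y) = false

namespace Prof

variable (D : Prof)

/-- random tiles which belong to the window and to the window shifted by `(0,-1)` -/
def InU (x y : ℤ) : Prop := D.p ≤ x ∧ x < D.q ∧ D.A x ≤ y + 1 ∧ y < D.H

/-- random tiles of the vertical parts of the line -/
def InV (g : ℤ → ℤ) (x y : ℤ) : Prop := y + 2 ≤ D.A x ∧ (g (x - 1) ≤ y ∨ g (x + 1) ≤ y)

open Classical in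
/-- **The states of the tiles** -/
noncomputable def σg (g : ℤ → ℤ) : State := fun q =>
  if D.InU q.1 q.2 ∨ D.InV g q.1 q.2 then none
  else if q.2 + 2 ≤ D.A q.1 ∧ g (q.1 - 1) = q.2 + 1 then some false
  else if q.2 + 2 ≤ D.A q.1 ∧ g (q.1 + 1) = q.2 + 1 then some true
  else some (D.ν q)

/-- **The line goes up by one row** over the columns `a ≤ x < b`, from the height `j` -/
structure Rise (g g' : ℤ → ℤ) (j a b : ℤ) : Prop where
  ab : a < b
  jH : j < D.H
  ge : ∀ x, D.A x ≤ g x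
  io : ∀ x, a ≤ x → x < b → D.A x ≤ j ∧ g x = j ∧ g' x = j + 1
  out : ∀ x, (x < a ∨ b ≤ x) → g' x = g x
  la : j < D.A (a - 1)
  lb : j < D.A b

variable {D} {g g' : ℤ → ℤ} {j a b x y : ℤ}

theorem σg_none : D.σg g (x, y) = none ↔ D.InU x y ∨ D.InV g x y := by
  unfold σg
  simp only
  split_ifs with h h1 h2 <;> simp [h]

theorem σU (g : ℤ → ℤ) (h0 : D.p ≤ x) (h1 : x < D.q) (h2 : D.A x ≤ y + 1) (h3 : y < D.H) :
    D.σg g (x, y) = none := by
  rw [σg_none]
  exact Or.inl ⟨h0, h1, h2, h3⟩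

theorem not_U (h : y + 2 ≤ D.A x) : ¬ D.InU x y := by
  unfold InU
  omega

theorem σVr {z : ℤ} (h1 : y + 2 ≤ D.A x) (hz : z = x + 1) (h2 : g z ≤ y) :
    D.σg g (x, y) = none := by
  subst hz
  rw [σg_none]
  exact Or.inr ⟨h1, Or.inr h2⟩

theorem σVl {z : ℤ} (h1 : y + 2 ≤ D.A x) (hz : z = x - 1) (h2 : g z ≤ y) :
    D.σg g (x, y) = none := by
  subst hz
  rw [σg_none]
  exact Or.inr ⟨h1, Or.inl h2⟩

theorem not_UV {z z' : ℤ} (h1 : y + 2 ≤ D.A x) (hz : z = x - 1) (hz' : z' = x + 1)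
    (h2 : y < g z) (h3 : y < g z') : ¬ (D.InU x y ∨ D.InV g x y) := by
  subst hz hz'
  rintro (h | ⟨-, h | h⟩)
  · exact not_U h1 h
  · omega
  · omega

theorem σL {z z' : ℤ} (h1 : y + 2 ≤ D.A x) (hz : z = x - 1) (hz' : z' = x + 1)
    (h2 : g z = y + 1) (h3 : y + 1 < g z') : D.σg g (x, y) = some false := by
  unfold σg
  simp only
  rw [if_neg (not_UV h1 hz hz' (by omega) (by omega)), if_pos ⟨h1, by rw [← hz]; exact h2⟩]

theorem σR {z z' : ℤ} (h1 : y + 2 ≤ D.A x) (hz : z = x - 1) (hz' : z' = x + 1)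
    (h2 : y + 1 < g z) (h3 : g z' = y + 1) : D.σg g (x, y) = some true := by
  unfold σg
  simp only
  rw [if_neg (not_UV h1 hz hz' (by omega) (by omega)), if_neg (by rw [← hz]; omega),
    if_pos ⟨h1, by rw [← hz']; exact h3⟩]

theorem σN {z z' : ℤ} (h1 : y + 2 ≤ D.A x) (hz : z = x - 1) (hz' : z' = x + 1)
    (h2 : y + 1 < g z) (h3 : y + 1 < g z') : D.σg g (x, y) = some (D.ν (x, y)) := by
  unfold σg
  simp only
  rw [if_neg (not_UV h1 hz hz' (by omega) (by omega)), if_neg (by rw [← hz]; omega),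
    if_neg (by rw [← hz']; omega)]

namespace Rise

variable (R : D.Rise g g' j a b)

include R

theorem a0 : D.p ≤ a := by
  by_contra h
  have h1 := (R.io a le_rfl R.ab).1
  have h2 := D.hw a (by omega)
  have h3 := R.jH
  omega

theorem bn : b ≤ D.q := by
  by_contra h
  have h1 := (R.io (b - 1) (by have := R.ab; omega) (by omega)).1
  have h2 := D.hw (b - 1) (by omega)
  have h3 := R.jH
  omega

theorem ab2 : a + 2 ≤ b := by
  by_contra h
  have hab := R.ab
  have e : b = a + 1 := by omega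
  have h1 := (R.io a le_rfl R.ab).1
  have h2 := R.la
  have h3 := R.lb
  have h4 := D.tV a (by omega)
  rw [e] at h3
  omega

/-- the tiles of the two rows are random -/
theorem row (g0 : ℤ → ℤ) (hx : a ≤ x) (hx' : x < b) (hy : y = j ∨ y = j - 1) :
    D.σg g0 (x, y) = none := by
  rw [σg_none]
  left
  have h0 := R.a0
  have h1 := R.bn
  have h2 := (R.io x hx hx').1
  have h3 := R.jH
  exact ⟨by omega, by omega, by omega, by omega⟩

/-- away from the two ends nothing changes -/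
theorem same (h1 : (x, y) ≠ (a - 1, j)) (h2 : (x, y) ≠ (a - 1, j - 1)) (h3 : (x, y) ≠ (b, j))
    (h4 : (x, y) ≠ (b, j - 1)) : D.σg g (x, y) = D.σg g' (x, y) := by
  have hab := R.ab2
  simp only [ne_eq, Prod.mk.injEq, not_and] at h1 h2 h3 h4
  -- comparison of the heights next to the solid tile
  have key : ∀ z : ℤ, (z = x - 1 ∨ z = x + 1) → y + 2 ≤ D.A x →
      (g z ≤ y ↔ g' z ≤ y) ∧ (g z = y + 1 ↔ g' z = y + 1) := by
    intro z hz hy
    by_cases hi : a ≤ z ∧ z < b
    · obtain ⟨-, e1, e2⟩ := R.io z hi.1 hi.2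
      by_cases hx : a ≤ x ∧ x < b
      · have := (R.io x hx.1 hx.2).1
        omega
      · rcases hz with rfl | rfl
        · have : x = b := by omega
          omega
        · have : x = a - 1 := by omega
          omega
    · rw [R.out z (by omega)]
      exact ⟨Iff.rfl, Iff.rfl⟩
  have e1 : (D.InU x y ∨ D.InV g x y) ↔ (D.InU x y ∨ D.InV g' x y) := by
    unfold InV
    by_cases hy : y + 2 ≤ D.A x
    · rw [(key (x - 1) (Or.inl rfl) hy).1, (key (x + 1) (Or.inr rfl) hy).1]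
    · simp only [hy, false_and]
  have e2 : (y + 2 ≤ D.A x ∧ g (x - 1) = y + 1) ↔ (y + 2 ≤ D.A x ∧ g' (x - 1) = y + 1) :=
    and_congr_right fun hy => (key (x - 1) (Or.inl rfl) hy).2
  have e3 : (y + 2 ≤ D.A x ∧ g (x + 1) = y + 1) ↔ (y + 2 ≤ D.A x ∧ g' (x + 1) = y + 1) :=
    and_congr_right fun hy => (key (x + 1) (Or.inr rfl) hy).2
  unfold σg
  simp only
  by_cases c1 : D.InU x y ∨ D.InV g x y
  · rw [if_pos c1, if_pos (e1.1 c1)]
  rw [if_neg c1, if_neg (fun h => c1 (e1.2 h))]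
  by_cases c2 : y + 2 ≤ D.A x ∧ g (x - 1) = y + 1
  · rw [if_pos c2, if_pos (e2.1 c2)]
  rw [if_neg c2, if_neg (fun h => c2 (e2.2 h))]
  by_cases c3 : y + 2 ≤ D.A x ∧ g (x + 1) = y + 1
  · rw [if_pos c3, if_pos (e3.1 c3)]
  rw [if_neg c3, if_neg (fun h => c3 (e3.2 h))]

/-- the left column -/
theorem heights : D.A (a - 1) ≤ D.A (a - 2) ∧ D.A (a - 1) ≤ D.A (a - 3) ∧ D.A b ≤ D.A (b + 1) ∧
    D.A b ≤ D.A (b + 2) := by
  have hab := R.ab2
  have h1 := (R.io a le_rfl R.ab).1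
  have h2 := R.la
  have h3 := (R.io (b - 1) (by omega) (by omega)).1
  have h4 := R.lb
  obtain ⟨e1, e2⟩ := D.tR (a - 1) (by rw [sub_add_cancel]; omega)
  obtain ⟨e3, e4⟩ := D.tL b (by omega)
  rw [show a - 1 - 1 = a - 2 by ring] at e1
  rw [show a - 1 - 2 = a - 3 by ring] at e2
  exact ⟨e1, e2, e3, e4⟩

theorem ga : g a = j ∧ g' a = j + 1 := (R.io a le_rfl R.ab).2

theorem gb : g (b - 1) = j ∧ g' (b - 1) = j + 1 :=
  (R.io (b - 1) (by have := R.ab; omega) (by omega)).2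

theorem go : g' (a - 1) = g (a - 1) ∧ g' (a - 2) = g (a - 2) ∧ g' (a - 3) = g (a - 3) ∧
    g' b = g b ∧ g' (b + 1) = g (b + 1) ∧ g' (b + 2) = g (b + 2) :=
  ⟨R.out _ (by omega), R.out _ (by omega), R.out _ (by omega), R.out _ (by omega),
    R.out _ (by omega), R.out _ (by omega)⟩

theorem rowA (g0 : ℤ → ℤ) : D.σg g0 (a, j) = none ∧ D.σg g0 (a, j - 1) = none ∧
    D.σg g0 (b - 1, j) = none ∧ D.σg g0 (b - 1, j - 1) = none :=
  ⟨R.row g0 le_rfl R.ab (Or.inl rfl), R.row g0 le_rfl R.ab (Or.inr rfl),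
    R.row g0 (by have := R.ab; omega) (by omega) (Or.inl rfl),
    R.row g0 (by have := R.ab; omega) (by omega) (Or.inr rfl)⟩

theorem lA : D.A a < D.A (a - 1) := by
  have hA := (R.io a le_rfl R.ab).1
  have hl := R.la
  omega

theorem left1 (hne : D.A (a - 1) ≠ j + 1) :
    ZS (!D.ν (a - 1, j - 1)) (D.σg g) (D.σg g') (a - 1, j) (a - 1, j - 1) (a, j) (a, j - 1)
      (a - 2, j) (a - 2, j - 1) .N .E := by
  have hl := R.la
  have hl2 : j + 2 ≤ D.A (a - 1) := by omega
  have hA := (R.io a le_rfl R.ab).1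
  obtain ⟨e1, e2, -, -⟩ := R.heights
  obtain ⟨g1, g2⟩ := R.ga
  obtain ⟨o1, o2, o3, -, -, -⟩ := R.go
  have k1 : j + 2 ≤ g (a - 1) := hl2.trans (R.ge (a - 1))
  have k2 : j + 2 ≤ g (a - 2) := (hl2.trans e1).trans (R.ge (a - 2))
  have k3 : j + 2 ≤ g (a - 3) := (hl2.trans e2).trans (R.ge (a - 3))
  have hl3 : j + 2 ≤ D.A (a - 2) := hl2.trans e1
  obtain ⟨r1, r2, -, -⟩ := R.rowA g
  obtain ⟨r3, r4, -, -⟩ := R.rowA g'
  have q1 : a = a - 1 + 1 := by ring
  have q2 : a - 2 = a - 1 - 1 := by ring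
  have q3 : a - 1 = a - 2 + 1 := by ring
  have q4 : a - 3 = a - 2 - 1 := by ring
  have f0 := D.fR (a - 1) (j - 1) (by rw [← q1]; exact R.lA) (by rw [← q1]; omega) (by omega)
  rw [← q2, sub_add_cancel] at f0
  clear hl hA e1 e2
  exact {
    hn := rfl
    hi := rfl
    eV := rfl
    eA := by simp [nb]
    eB := by simp [nb]
    eU := by simp only [nb, op]; rw [← q2]
    eV2 := by simp only [nb, op]; rw [← q2]
    rU := σVr hl2 q1 (by omega)
    sU := σR hl2 q2 q1 (by omega) (by omega)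
    sV := σR (by omega) q2 q1 (by omega) (by omega)
    rA := ⟨r1, r3⟩
    rB := ⟨r2, r4⟩
    nc := fun h => by
      rw [Bool.not_eq_false'] at h
      rw [σN (by omega) q2 q1 (by omega) (by omega), h]
      rfl
    yc := fun h => by
      rw [Bool.not_eq_true'] at h
      obtain ⟨f1, f2⟩ := f0 h
      refine ⟨?_, ?_, ?_, ?_, ?_⟩
      · rw [σN (by omega) q2 q1 (by omega) (by omega), h]
        rfl
      · rw [σN (by omega) q4 q3 (by omega) (by omega), f1]
        rfl
      · rw [σN (by omega) q4 q3 (by omega) (by omega), f1]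
        rfl
      · rw [σN (by omega) q4 q3 (by omega) (by omega), f2]
        rfl
      · rw [σN (by omega) q4 q3 (by omega) (by omega), f2]
        rfl }

theorem lo (he : D.A (a - 1) = j + 1) : D.p ≤ a - 1 := by
  by_contra h
  have := D.hw (a - 1) (by omega)
  have := R.jH
  omega

theorem hi (he : D.A b = j + 1) : b < D.q := by
  by_contra h
  have := D.hw b (by omega)
  have := R.jH
  omega

theorem left2 (he : D.A (a - 1) = j + 1) :
    ZR (D.σg g) (D.σg g') (a - 1, j) (a - 1, j - 1) (a, j) (a, j - 1) .N .E ∧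
      D.ν (a - 1, j - 1) = true := by
  have hH := R.jH
  obtain ⟨e1, e2, -, -⟩ := R.heights
  obtain ⟨g1, g2⟩ := R.ga
  obtain ⟨o1, o2, o3, -, -, -⟩ := R.go
  have k2 : j + 1 ≤ g (a - 2) := (he.symm.le.trans e1).trans (R.ge (a - 2))
  obtain ⟨r1, r2, -, -⟩ := R.rowA g
  obtain ⟨r3, r4, -, -⟩ := R.rowA g'
  have q1 : a = a - 1 + 1 := by ring
  have q2 : a - 2 = a - 1 - 1 := by ring
  have hn : a - 1 < D.q := by
    have := R.bn
    have := R.ab
    omega
  have hlo := R.lo he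
  have hν : D.ν (a - 1, j - 1) = true := by
    have := D.pR (a - 1) hlo hn (by rw [← q1]; exact R.lA)
    rw [he] at this
    rwa [show j + 1 - 2 = j - 1 by ring] at this
  refine ⟨?_, hν⟩
  clear e1 e2
  exact {
    hn := rfl
    hi := rfl
    eV := rfl
    eA := by simp [nb]
    eB := by simp [nb]
    rU := ⟨σU g hlo hn (by omega) hH, σU g' hlo hn (by omega) hH⟩
    sV := ⟨σR (by omega) q2 q1 (by omega) (by omega), by
      rw [σN (by omega) q2 q1 (by omega) (by omega), hν]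
      rfl⟩
    rA := ⟨r1, r3⟩
    rB := ⟨r2, r4⟩ }

theorem lB : D.A (b - 1) < D.A b := by
  have hA := (R.io (b - 1) (by have := R.ab; omega) (by omega)).1
  have hl := R.lb
  omega

theorem right1 (hne : D.A b ≠ j + 1) :
    ZS (D.ν (b, j - 1)) (D.σg g) (D.σg g') (b, j) (b, j - 1) (b - 1, j) (b - 1, j - 1)
      (b + 1, j) (b + 1, j - 1) .N .W := by
  have hl := R.lb
  have hl2 : j + 2 ≤ D.A b := by omega
  have hA := (R.io (b - 1) (by have := R.ab; omega) (by omega)).1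
  obtain ⟨-, -, e1, e2⟩ := R.heights
  obtain ⟨g1, g2⟩ := R.gb
  obtain ⟨-, -, -, o1, o2, o3⟩ := R.go
  have k1 : j + 2 ≤ g b := hl2.trans (R.ge b)
  have k2 : j + 2 ≤ g (b + 1) := (hl2.trans e1).trans (R.ge (b + 1))
  have k3 : j + 2 ≤ g (b + 2) := (hl2.trans e2).trans (R.ge (b + 2))
  have hl3 : j + 2 ≤ D.A (b + 1) := hl2.trans e1
  obtain ⟨-, -, r1, r2⟩ := R.rowA g
  obtain ⟨-, -, r3, r4⟩ := R.rowA g'
  have q1 : b - 1 = b - 1 := rfl
  have q2 : b + 1 = b + 1 := rfl
  have q3 : b = b + 1 - 1 := by ring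
  have q4 : b + 2 = b + 1 + 1 := by ring
  have f0 := D.fL b (j - 1) R.lB (by omega) (by omega)
  rw [sub_add_cancel] at f0
  clear hl hA e1 e2
  exact {
    hn := rfl
    hi := rfl
    eV := rfl
    eA := rfl
    eB := rfl
    eU := rfl
    eV2 := rfl
    rU := σVl hl2 q1 (by omega)
    sU := σL hl2 q1 q2 (by omega) (by omega)
    sV := σL (by omega) q1 q2 (by omega) (by omega)
    rA := ⟨r1, r3⟩
    rB := ⟨r2, r4⟩
    nc := fun h => by
      rw [σN (by omega) q1 q2 (by omega) (by omega), h]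
      rfl
    yc := fun h => by
      obtain ⟨f1, f2⟩ := f0 h
      refine ⟨?_, ?_, ?_, ?_, ?_⟩
      · rw [σN (by omega) q1 q2 (by omega) (by omega), h]
        rfl
      · rw [σN (by omega) q3 q4 (by omega) (by omega), f1]
        rfl
      · rw [σN (by omega) q3 q4 (by omega) (by omega), f1]
        rfl
      · rw [σN (by omega) q3 q4 (by omega) (by omega), f2]
        rfl
      · rw [σN (by omega) q3 q4 (by omega) (by omega), f2]
        rfl }

theorem right2 (he : D.A b = j + 1) :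
    ZR (D.σg g) (D.σg g') (b, j) (b, j - 1) (b - 1, j) (b - 1, j - 1) .N .W ∧
      D.ν (b, j - 1) = false := by
  have hH := R.jH
  obtain ⟨-, -, e1, e2⟩ := R.heights
  obtain ⟨g1, g2⟩ := R.gb
  obtain ⟨-, -, -, o1, o2, o3⟩ := R.go
  have k2 : j + 1 ≤ g (b + 1) := (he.symm.le.trans e1).trans (R.ge (b + 1))
  obtain ⟨-, -, r1, r2⟩ := R.rowA g
  obtain ⟨-, -, r3, r4⟩ := R.rowA g'
  have q1 : b - 1 = b - 1 := rfl
  have q2 : b + 1 = b + 1 := rfl
  have hn : D.p ≤ b := by
    have := R.a0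
    have := R.ab
    omega
  have hhi := R.hi he
  have hν : D.ν (b, j - 1) = false := by
    have := D.pL b hn hhi R.lB
    rw [he] at this
    rwa [show j + 1 - 2 = j - 1 by ring] at this
  refine ⟨?_, hν⟩
  clear e1 e2
  exact {
    hn := rfl
    hi := rfl
    eV := rfl
    eA := rfl
    eB := rfl
    rU := ⟨σU g hn hhi (by omega) hH, σU g' hn hhi (by omega) hH⟩
    sV := ⟨σL (by omega) q1 q2 (by omega) (by omega), by
      rw [σN (by omega) q1 q2 (by omega) (by omega), hν]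
      rfl⟩
    rA := ⟨r1, r3⟩
    rB := ⟨r2, r4⟩ }

/-- **The two environments differ in a strip.** -/
theorem strip : Strip (D.σg g) (D.σg g') a b j true (decide (D.A (a - 1) = j + 1))
    (!D.ν (a - 1, j - 1)) true (decide (D.A b = j + 1)) (D.ν (b, j - 1)) where
  ab := R.ab2
  row := fun x h1 h2 => ⟨⟨R.row g h1 h2 (Or.inl rfl), R.row g' h1 h2 (Or.inl rfl)⟩,
    R.row g h1 h2 (Or.inr rfl), R.row g' h1 h2 (Or.inr rfl)⟩
  out := by
    rintro ⟨x, y⟩ h1 h2 h3 h4
    exact R.same h1 h2 h3 h4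
  l1 := fun h _ => R.left1 (of_decide_eq_false h)
  l2 := fun _ h => absurd h (by simp)
  l3 := fun h _ => (R.left2 (of_decide_eq_true h)).1
  l4 := fun _ h => absurd h (by simp)
  lc := fun h => by rw [(R.left2 (of_decide_eq_true h)).2]; rfl
  r1 := fun h _ => R.right1 (of_decide_eq_false h)
  r2 := fun _ h => absurd h (by simp)
  r3 := fun h _ => (R.right2 (of_decide_eq_true h)).1
  r4 := fun _ h => absurd h (by simp)
  rc := fun h => (R.right2 (of_decide_eq_true h)).2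

end Rise

end Prof

end Pool.Agent.H64.W
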